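import Pool.Agent.Helper34_KL2.Ins
import Pool.Agent.Helper76_ANR.All
import Pool.Agent.Helper10_ABY.CMP
import Pool.Agent.Helper82_ABY.VEX
import Pool.Agent.Helper13_ABY.VFR

/-!
# THE SECOND HALF OF THE FIELD `kil`: `Fin1 ⇒ Rl`
-/

set_option autoImplicit false

open scoped BigOperators NNReal Matrix

noncomputable section

namespace Pool.Agent.KL2

open Pool.Agent.BED (Tor)
open Pool.Agent.AND2B (net kap Gt Hr Vef res)
open Pool.Agent.ANP (Cfg Geo Fc)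
open Pool.Agent.AFJ (ind LaR EE)
open Pool.Agent.LE.QF (BB KK Dl)
open Pool.Agent.ANR (Gr cE fl CutStmt)
open Pool.Agent.LTG (Fm Bd sT tT qd)
open Pool.Agent.CTC (CT fac)
open Pool.Agent.AHH

variable {d μ : ℕ}

/-- the numbers for the weights of the form; `ρ` the radius, `rk` the radius of the kills -/
structure KN3 (d nS Jc Jr ρ rk : ℕ)
    (c₀ u₀ D₀ D₁ rho nR tau k₀ β Wt nQ θ δ Th θ₁ δ₁ T₁ ε u : ℝ) : Prop where
  heps : 0 < ε ∧ ε ≤ 1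
  hu₀ : 0 ≤ u₀ ∧ u₀ < 1
  hD : 0 < D₀ ∧ D₀ ≤ D₁
  hrho : 0 ≤ rho
  htau : 0 < tau ∧ tau ≤ 1
  hnR : 0 ≤ nR
  b1 : rho + 2 * nR ≤ 1 / 4 ∧ rho + 2 * nR ≤ (1 - u₀) / 2
  hu : 0 ≤ u
  u1 : ε * ((2 + 32 * (d : ℝ) ^ 2 * 2) * (2 / (1 - u₀))) + 8 / ε * δ ≤ u
  u2 : ε * ((2 + 32 * (d : ℝ) ^ 2 * 2) * (2 * D₁)) + 8 / ε * fac d Jr θ Th ≤ u * (2 * D₁)
  n1 : 4 * ((2 * δ₁ + u) * nQ) ≤ nR / 2
  n2 : 8 * (CT d (β / 16) * Wt * nS) / (k₀ * c₀ * tau) ≤ nR / 2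
  n3 : (2 * fac d Jc θ₁ T₁ + u * (2 * D₁)) * nQ ≤ D₀ * nR / 2
  n4 : 2 * (CT d (β / 16) * Wt * nS) / tau ≤ D₀ * nR / 2
  r1 : 4 * rk ≤ ρ
  r2 : 2 ≤ β / 16 / (4 * d) * ρ

namespace Cx

variable {J₀ N₀ : ℕ} {l r : ℕ → ℕ} {V : Env d (2 ^ μ)} {b : Bud} {n : ℕ}
  {T₀ : Cfg (Tor d (2 ^ μ))} {run₀ P : Finset (Tor d (2 ^ μ))} {T : Cfg (Tor d (2 ^ μ))}
  {run Q : Finset (Tor d (2 ^ μ))} {v : Tor d (2 ^ μ) → ℝ} {T' : Cfg (Tor d (2 ^ μ))}
  {rk : ℕ} {J mm MM hK : ℝ}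

/-- the tails are at most the potential -/
theorem tail_pot (h : Cx J₀ N₀ l r V b n T₀ run₀ P T run Q v T' rk J mm MM hK)
    {γ : ℝ} (hτ : 0 < b.tau n ∧ b.tau n ≤ 1) (hγ : 0 ≤ γ) (h1 : 4 * rk ≤ V.Γ.ρ n)
    (h2 : 2 ≤ γ * V.Γ.ρ n) (x : Tor d (2 ^ μ)) :
    ∑ q ∈ S run Q T', Real.exp (-(γ * ANP.H61.sd x q)) ≤
      (S run Q T').card * (pot V b n Q x / b.tau n) := by
  have hρ : (0 : ℝ) < V.Γ.ρ n := by
    by_contra hc
    push Not at hc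
    nlinarith
  refine (Finset.sum_le_card_nsmul _ _ (pot V b n Q x / b.tau n) fun c hc => ?_).trans
    (le_of_eq (by rw [nsmul_eq_mul]))
  rw [le_div_iff₀ hτ.1]
  obtain ⟨q, hq, h3⟩ := h.near_Q hc
  by_cases hn : x ∈ V.Γ.nbh Q (V.Γ.ρ n)
  · have h4 := h.pot_near hτ.1.le hn
    have h5 : Real.exp (-(γ * ANP.H61.sd x c)) ≤ 1 := by
      rw [Real.exp_le_one_iff]
      have : 0 ≤ γ * (ANP.H61.sd x c : ℝ) := by positivity
      linarith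
    have h6 := Real.exp_pos (-(γ * ANP.H61.sd x c))
    nlinarith [hτ.1, hτ.2]
  · have h4 := h.pot_far hτ.1.le hq x
    have h5 : V.Γ.ρ n < V.Γ.D x q := by
      by_contra hc'
      exact hn (mem_nbh.2 ⟨q, hq, not_lt.1 hc'⟩)
    rw [mul_comm]
    refine le_trans (mul_le_mul_of_nonneg_left (Real.exp_le_exp.2 ?_) hτ.1.le) h4
    rw [h.D_eq] at h5 ⊢
    have h6 := ANP.H61.sd_tri x c q
    have h7 : (ANP.H61.sd x q : ℝ) ≤ ANP.H61.sd x c + ANP.H61.sd c q := by exact_mod_cast h6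
    have h8 : (ANP.H61.sd c q : ℝ) ≤ rk := by exact_mod_cast h3
    have h9 : 4 * (rk : ℝ) ≤ V.Γ.ρ n := by exact_mod_cast h1
    have h10 : (V.Γ.ρ n : ℝ) ≤ ANP.H61.sd x q := by exact_mod_cast h5.le
    have h11 : (3 / 4 : ℝ) * ANP.H61.sd x q ≤ ANP.H61.sd x c := by linarith
    have h12 : (ANP.H61.sd x q : ℝ) / V.Γ.ρ n ≤ γ * (1 / 2 * ANP.H61.sd x q) := by
      rw [div_le_iff₀ hρ]
      nlinarith [(Nat.cast_nonneg (ANP.H61.sd x q) : (0 : ℝ) ≤ _)]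
    have h13 : γ * (1 / 2 * (ANP.H61.sd x q : ℝ)) ≤ γ * ANP.H61.sd x c := by
      refine mul_le_mul_of_nonneg_left ?_ hγ
      linarith [(Nat.cast_nonneg (ANP.H61.sd x q) : (0 : ℝ) ≤ _)]
    linarith

/-- field `frm` of `Rl` -/
theorem frm' (hcut : CutStmt) (hd : 3 ≤ d)
    (h : Cx J₀ N₀ l r V b n T₀ run₀ P T run Q v T' rk J mm MM hK)
    {k t nS Jc Jr : ℕ}
    {Cg k₀ β κR nQ nK W₁ Wt θ δ Th θ₁ δ₁ T₁ ε u : ℝ}
    (hN : KN2 d n V.Dn μ k t rk nS (V.cl (V.kk (n + 1)) : ℝ) V.c₀ V.C₀ V.e₀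
      (b.q n (V.kk (n + 1))).lam Cg k₀ β κR nQ nK W₁ Wt mm MM hK θ δ Th θ₁ δ₁ T₁)
    (hN3 : KN3 d nS Jc Jr (V.Γ.ρ n) rk V.c₀ V.u₀ V.D₀ V.D₁ (b.q n (V.kk (n + 1))).rho (b.nR n)
      (b.tau n) k₀ β Wt nQ θ δ Th θ₁ δ₁ T₁ ε u)
    (hr : r n = k + 2)
    (heps : (b.q n (V.kk (n + 1))).eps ≤ (b.q n (V.kk (n + 1))).rho)
    (hS : (S run Q T').card ≤ nS) (hSD : (S run Q T').card ≤ V.Dn n)
    (hQ : (Q.card : ℝ) ≤ nQ) (hKc : ((Ks run T').card : ℝ) ≤ nK)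
    (hsum : ∑ i ∈ Finset.range (n + 1), (3 ^ d * (2 * V.Dn i : ℕ) : ℝ) / 2 ^ l i ≤ 1 / 4)
    (hCg : ∀ x ∈ run, (net V.E V.e₀ T x x).im ≤ Cg)
    (hΦ : ∀ x, b.lR n * Phi V.Γ (b.tau n) n P x ≤ 1)
    (hΦ2 : ∀ x, Phi V.Γ (b.tau n) n (P ∪ V.Γ.nbh Q (V.Γ.ρ n)) x ≤ 2) :
    FB V T' (fun x => (if x ∈ run.filter (fun x => T'.s x ≠ 0) then
        (b.q n (V.kk (n + 1))).eps else (b.q n (V.kk (n + 1))).rho) +
        b.nR n * Phi V.Γ (b.tau n) n (P ∪ V.Γ.nbh Q (V.Γ.ρ n)) x)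
      (fun x => (b.q n (V.kk (n + 1))).rho +
        b.nR n * Phi V.Γ (b.tau n) n (P ∪ V.Γ.nbh Q (V.Γ.ρ n)) x) := by
  classical
  set rho := (b.q n (V.kk (n + 1))).rho with hrho
  set epsn := (b.q n (V.kk (n + 1))).eps with hepsn
  obtain ⟨εl, εu, bl, bu, hF, hn, hb⟩ := h.rl.frm
  have hkf := h.kf hN hr hS hSD hQ hKc hsum hCg hΦ
  obtain ⟨hε0, hε1⟩ := hN3.heps
  obtain ⟨hu00, hu01⟩ := hN3.hu₀
  obtain ⟨hD0, hD01⟩ := hN3.hD
  obtain ⟨hτ0, hτ1⟩ := hN3.htau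
  obtain ⟨hb1, hb2⟩ := hN3.b1
  have hnR := hN3.hnR
  have hrho0 := hN3.hrho
  have hD1 : 0 < V.D₁ := lt_of_lt_of_le hD0 hD01
  obtain ⟨hk₀, hk0, hk1⟩ := hN.hk₀
  have hkc : 0 < k₀ * V.c₀ := mul_pos hk0 hN.hc
  have hpot0 : ∀ x, 0 ≤ pot V b n Q x := fun x => H61.Phi_nonneg V.Γ _ hτ0.le n _ x
  have hPhi0 : ∀ x, 0 ≤ Phi V.Γ (b.tau n) n P x := fun x => H61.Phi_nonneg V.Γ _ hτ0.le n _ x
  have hPhi : ∀ x, Phi V.Γ (b.tau n) n P x + pot V b n Q x ≤ 2 := fun x => by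
    rw [← h.phi_eq]; exact hΦ2 x
  have hnP : ∀ x, b.nR n * Phi V.Γ (b.tau n) n P x + b.nR n * pot V b n Q x ≤ 2 * b.nR n := by
    intro x
    rw [← mul_add]
    nlinarith [hPhi x]
  have hεl : ∀ x ∈ Al T, εl x ≤ rho + b.nR n * Phi V.Γ (b.tau n) n P x := by
    intro x hx
    refine (hn x hx).2.1.trans (add_le_add ?_ le_rfl)
    split
    · exact heps
    · exact le_rfl
  have hβ0 : 0 < β := by
    rw [hN.hβ]
    have hd' : (0 : ℝ) < d := by exact_mod_cast (show 0 < d by omega)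
    positivity
  have hWt0 : 0 ≤ Wt := by
    have h1 : 0 ≤ W₁ := le_trans (by positivity) hN.hW₁
    exact le_trans (by positivity) hN.e2
  have hCT : 0 ≤ CT d (β / 16) := by
    unfold CT
    positivity
  have hCW : 0 ≤ CT d (β / 16) * Wt := mul_nonneg hCT hWt0
  have hγ0 : 0 ≤ β / 16 / (4 * (d : ℝ)) := by positivity
  have htail : ∀ x, CT d (β / 16) * Wt *
      (∑ q ∈ S run Q T', Real.exp (-(β / 16 / (4 * d) * ANP.H61.sd x q))) ≤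
      (CT d (β / 16) * Wt * nS) / b.tau n * pot V b n Q x := by
    intro x
    have h1 := h.tail_pot ⟨hτ0, hτ1⟩ hγ0 hN3.r1 hN3.r2 x
    have h2 : ((S run Q T').card : ℝ) * (pot V b n Q x / b.tau n) ≤
        nS * (pot V b n Q x / b.tau n) :=
      mul_le_mul_of_nonneg_right (by exact_mod_cast hS) (div_nonneg (hpot0 x) hτ0.le)
    refine (mul_le_mul_of_nonneg_left (h1.trans h2) hCW).trans (le_of_eq ?_)
    ring
  have hnear : ∀ x, (∃ q ∈ Q, ANP.H61.sd x q ≤ 2 ^ (k + 2)) → 1 ≤ pot V b n Q x := by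
    rintro x ⟨q, hq, hxq⟩
    refine h.pot_near hτ0.le (mem_nbh.2 ⟨q, hq, ?_⟩)
    rw [h.D_eq, h.rho_eq, hr]
    exact hxq
  have hind : ∀ x, ((Q.card : ℝ) * if ∃ q ∈ Q, ANP.H61.sd x q ≤ 2 ^ (k + 2) then 1 else 0) ≤
      nQ * pot V b n Q x := by
    intro x
    have hnQ : 0 ≤ nQ := hN.nn.1
    by_cases hx : ∃ q ∈ Q, ANP.H61.sd x q ≤ 2 ^ (k + 2)
    · rw [if_pos hx, mul_one]
      have := hnear x hx
      nlinarith
    · rw [if_neg hx, mul_zero]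
      exact mul_nonneg hnQ (hpot0 x)
  have hδ₁0 : 0 ≤ δ₁ := hkf.pos.2.2.2
  have hT₁0 : 0 ≤ T₁ := by
    refine le_trans (Finset.sum_nonneg fun c hc' => ?_) hkf.f3
    refine mul_nonneg (h.kap_pos c).le (Finset.sum_nonneg fun x hx => ?_)
    exact mul_nonneg (h.kap_pos x).le (sq_nonneg _)
  have hfac0 := CTC.fac_nonneg d Jc hkf.pos.2.2.1 hT₁0
  have hu0 := hN3.hu
  have hF' : Fm sT tT (Al T) (ww V.e₀ T) εl εu bl bu
      (cE (net V.E V.e₀ T) (kap V.e₀ T) (Al T)) :=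
    fm_congr (fun _ _ => rfl) (fun f => qd_ee _ _ _ h.net_symm f) hF
  have hK := kfm hcut hd Jc Jr hkf (ε := ε) (b₀ := V.D₁) (b₁ := 2 * V.D₁)
    (cu := 2 / (1 - V.u₀)) (u := u) (ν := fun x => b.nR n * pot V b n Q x)
    (νb := fun e => V.D₀ * (b.nR n * pot V b n Q (sT e))) hF' hε0 hε1
    (fun x hx => (hn x hx).1) (fun x hx => (hn x hx).2.2.1)
    (fun x hx => by
      have h1 := (hn x hx).2.2.2
      have h2 := hnP x
      have h3 := hpot0 x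
      have h4 : 0 ≤ b.nR n * pot V b n Q x := mul_nonneg hnR h3
      have h5 : (1 - V.u₀) / 2 ≤ 1 - εu x := by linarith
      have h6 : 0 < 1 - V.u₀ := by linarith
      calc (1 : ℝ) = 2 / (1 - V.u₀) * ((1 - V.u₀) / 2) := by field_simp
        _ ≤ _ := mul_le_mul_of_nonneg_left h5 (by positivity))
    (by
      have h6 : 0 < 1 - V.u₀ := by linarith
      positivity)
    hD1
    (fun e _ => by
      obtain ⟨h1, h2, h3⟩ := hb e
      refine ⟨h2, h3.trans ?_⟩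
      have h4 := hnP (sT e)
      have h5 : 0 ≤ b.nR n * pot V b n Q (sT e) := mul_nonneg hnR (hpot0 _)
      have h6 : (b.q n (V.kk (n + 1))).rho + b.nR n * Phi V.Γ (b.tau n) n P (sT e) ≤ 1 := by
        linarith
      nlinarith)
    (by positivity) hu0
    (by
      have e1 : 2 * V.D₁ / V.D₁ = 2 := by field_simp
      rw [e1]
      exact hN3.u1)
    (by
      have e1 : 2 * V.D₁ / V.D₁ = 2 := by field_simp
      rw [e1]
      exact hN3.u2)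
    (fun x hx => by
      have h1 := mul_le_mul_of_nonneg_left (hind x) (by positivity : 0 ≤ 2 * δ₁ + u)
      have h2 := mul_le_mul_of_nonneg_right hN3.n1 (hpot0 x)
      have h3 := htail x
      have h4 : k₀ * V.c₀ ≤ ww V.e₀ T x := by rw [hk₀]; exact h.ww_ge hx
      have h5 : 8 * (CT d (β / 16) * Wt *
          (∑ q ∈ S run Q T', Real.exp (-(β / 16 / (4 * d) * ANP.H61.sd x q))) / ww V.e₀ T x) ≤
          b.nR n / 2 * pot V b n Q x := by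
        have hw : 0 < ww V.e₀ T x := lt_of_lt_of_le hkc h4
        have e1 : CT d (β / 16) * Wt *
            (∑ q ∈ S run Q T', Real.exp (-(β / 16 / (4 * d) * ANP.H61.sd x q))) / ww V.e₀ T x ≤
            (CT d (β / 16) * Wt * nS) / b.tau n * pot V b n Q x / (k₀ * V.c₀) := by
          refine (div_le_div_of_nonneg_right h3 hw.le).trans ?_
          refine div_le_div_of_nonneg_left ?_ hkc h4
          exact mul_nonneg (div_nonneg (by positivity) hτ0.le) (hpot0 x)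
        have e2 : 8 * ((CT d (β / 16) * Wt * nS) / b.tau n * pot V b n Q x / (k₀ * V.c₀)) =
            8 * (CT d (β / 16) * Wt * nS) / (k₀ * V.c₀ * b.tau n) * pot V b n Q x := by
          field_simp
        refine (mul_le_mul_of_nonneg_left e1 (by norm_num)).trans ?_
        rw [e2]
        exact mul_le_mul_of_nonneg_right hN3.n2 (hpot0 x)
      calc 4 * ((2 * δ₁ + u) * (Q.card * if ∃ q ∈ Q, ANP.H61.sd x q ≤ 2 ^ (k + 2) then 1 else 0)) +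
          8 * (CT d (β / 16) * Wt *
          (∑ q ∈ S run Q T', Real.exp (-(β / 16 / (4 * d) * ANP.H61.sd x q))) / ww V.e₀ T x)
          ≤ 4 * ((2 * δ₁ + u) * (nQ * pot V b n Q x)) + b.nR n / 2 * pot V b n Q x :=
            add_le_add (mul_le_mul_of_nonneg_left h1 (by norm_num)) h5
        _ = 4 * ((2 * δ₁ + u) * nQ) * pot V b n Q x + b.nR n / 2 * pot V b n Q x := by ring
        _ ≤ b.nR n / 2 * pot V b n Q x + b.nR n / 2 * pot V b n Q x := add_le_add h2 le_rfl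
        _ = b.nR n * pot V b n Q x := by ring)
    (fun e => by
      have h1 := mul_le_mul_of_nonneg_left (hind (sT e))
        (by positivity : 0 ≤ 2 * fac d Jc θ₁ T₁ + u * (2 * V.D₁))
      have h2 := mul_le_mul_of_nonneg_right hN3.n3 (hpot0 (sT e))
      have h3 := htail (sT e)
      have h5 : 2 * (CT d (β / 16) * Wt *
          (∑ q ∈ S run Q T', Real.exp (-(β / 16 / (4 * d) * ANP.H61.sd (sT e) q)))) ≤
          V.D₀ * b.nR n / 2 * pot V b n Q (sT e) := by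
        refine (mul_le_mul_of_nonneg_left h3 (by norm_num : (0 : ℝ) ≤ 2)).trans ?_
        have e2 : 2 * ((CT d (β / 16) * Wt * nS) / b.tau n * pot V b n Q (sT e)) =
            2 * (CT d (β / 16) * Wt * nS) / b.tau n * pot V b n Q (sT e) := by
          ring
        rw [e2]
        exact mul_le_mul_of_nonneg_right hN3.n4 (hpot0 _)
      calc (2 * fac d Jc θ₁ T₁ + u * (2 * V.D₁)) *
            (Q.card * if ∃ q ∈ Q, ANP.H61.sd (sT e) q ≤ 2 ^ (k + 2) then 1 else 0) +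
          2 * (CT d (β / 16) * Wt *
          (∑ q ∈ S run Q T', Real.exp (-(β / 16 / (4 * d) * ANP.H61.sd (sT e) q))))
          ≤ (2 * fac d Jc θ₁ T₁ + u * (2 * V.D₁)) * (nQ * pot V b n Q (sT e)) +
            V.D₀ * b.nR n / 2 * pot V b n Q (sT e) := add_le_add h1 h5
        _ = (2 * fac d Jc θ₁ T₁ + u * (2 * V.D₁)) * nQ * pot V b n Q (sT e) +
            V.D₀ * b.nR n / 2 * pot V b n Q (sT e) := by ring
        _ ≤ V.D₀ * b.nR n / 2 * pot V b n Q (sT e) +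
            V.D₀ * b.nR n / 2 * pot V b n Q (sT e) := add_le_add h2 le_rfl
        _ = V.D₀ * (b.nR n * pot V b n Q (sT e)) := by ring)
    (fun x hx => by
      have h1 := hεl x hx
      have h2 := hnP x
      linarith)
    (fun x hx => by
      have h1 := (hn x hx).2.2.2
      have h2 := hnP x
      linarith)
  refine ⟨fun x => εl x + b.nR n * pot V b n Q x, fun x => εu x + b.nR n * pot V b n Q x,
    fun e => bl e - V.D₀ * (b.nR n * pot V b n Q (sT e)),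
    fun e => bu e + V.D₀ * (b.nR n * pot V b n Q (sT e)), ?_, fun x hx => ?_, fun e => ?_⟩
  · rw [h.al_eq]
    refine fm_congr (fun x hx => ?_) (fun f => ?_) hK
    · unfold ww
      rw [h.kap_eq (Finset.mem_sdiff.1 hx).2, h.gg_eq]
    · unfold Ef
      rw [h.al_eq, qd_ee _ _ _ h.net_symm']
      exact cE_kap _ (fun x hx => (h.kap_eq (Finset.mem_sdiff.1 hx).2).symm) f
  · have hxA := h.al_sub hx
    obtain ⟨h1, h2, h3, h4⟩ := hn x hxA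
    have h5 : 0 ≤ b.nR n * pot V b n Q x := mul_nonneg hnR (hpot0 x)
    dsimp only
    rw [h.phi_eq, mul_add]
    dsimp only at h2 h4
    refine ⟨by linarith, ?_, by linarith, by linarith⟩
    have hxs : T'.s x ≠ 0 := (H16.mem_al.1 hx).ne'
    by_cases hxr : x ∈ run
    · rw [if_pos (Finset.mem_filter.2 ⟨hxr, hxs⟩)]
      rw [if_pos hxr] at h2
      linarith
    · rw [if_neg fun hh => hxr (Finset.mem_filter.1 hh).1]
      rw [if_neg hxr] at h2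
      linarith
  · obtain ⟨h1, h2, h3⟩ := hb e
    have h5 : 0 ≤ b.nR n * pot V b n Q (sT e) := mul_nonneg hnR (hpot0 _)
    dsimp only
    rw [h.phi_eq, mul_add]
    refine ⟨by nlinarith, by nlinarith, ?_⟩
    have h6 : V.D₀ * (b.nR n * pot V b n Q (sT e)) ≤ V.D₁ * (b.nR n * pot V b n Q (sT e)) :=
      mul_le_mul_of_nonneg_right hD01 h5
    nlinarith

/-- (KIL2) THE SECOND HALF OF THE FIELD `kil` -/
theorem kil2 (hd : 3 ≤ d)
    (h : Cx J₀ N₀ l r V b n T₀ run₀ P T run Q v T' rk J mm MM hK)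
    {k t nS Jc Jr : ℕ}
    {Cg k₀ β κR nQ nK W₁ Wt θ δ Th θ₁ δ₁ T₁ ε u η : ℝ}
    (hN1 : KN1 k₀ V.c₀ (b.q n (V.kk (n + 1))).lam (b.icR n) (b.lR n) (b.yR n) (b.tau n) Cg
      (J + 4 / k₀ * Real.exp (-(β / 4 * V.Γ.ρ n))) (mm + 8 / k₀ * Real.exp (-(β / 4 * V.Γ.ρ n)))
      (8 / k₀) (β / 4) η (V.Γ.ρ n))
    (hN : KN2 d n V.Dn μ k t rk nS (V.cl (V.kk (n + 1)) : ℝ) V.c₀ V.C₀ V.e₀
      (b.q n (V.kk (n + 1))).lam Cg k₀ β κR nQ nK W₁ Wt mm MM hK θ δ Th θ₁ δ₁ T₁)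
    (hN3 : KN3 d nS Jc Jr (V.Γ.ρ n) rk V.c₀ V.u₀ V.D₀ V.D₁ (b.q n (V.kk (n + 1))).rho (b.nR n)
      (b.tau n) k₀ β Wt nQ θ δ Th θ₁ δ₁ T₁ ε u)
    (hJ : 0 ≤ J) (hr : r n = k + 2)
    (heps : (b.q n (V.kk (n + 1))).eps ≤ (b.q n (V.kk (n + 1))).rho)
    (hS : (S run Q T').card ≤ nS) (hSD : (S run Q T').card ≤ V.Dn n)
    (hQ : (Q.card : ℝ) ≤ nQ) (hKc : ((Ks run T').card : ℝ) ≤ nK)
    (hsum : ∑ i ∈ Finset.range (n + 1), (3 ^ d * (2 * V.Dn i : ℕ) : ℝ) / 2 ^ l i ≤ 1 / 4)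
    (hZ : (rk : ℝ) / 2 + Zc d n V.Dn ≤ (V.Γ.ρ n : ℝ) / 4)
    (hCg : V.C₀ + (b.q n (V.kk (n + 1))).mis + 2 * b.icR n ≤ Cg) (hicR : 0 ≤ b.icR n)
    (hlR : 0 ≤ b.lR n ∧ 2 * b.lR n ≤ 1) (hyR : 0 ≤ b.yR n)
    (hΦ2 : ∀ P x, Phi V.Γ (b.tau n) n P x ≤ 2) :
    Rl V b n T₀ run₀ (P ∪ V.Γ.nbh Q (V.Γ.ρ n)) T' (run.filter fun x => T'.s x ≠ 0) := by
  have hΦ : ∀ x, b.lR n * Phi V.Γ (b.tau n) n P x ≤ 1 := fun x => by
    nlinarith [hΦ2 P x, hlR.1, hlR.2]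
  have hCg' : ∀ x ∈ run, (net V.E V.e₀ T x x).im ≤ Cg := fun x hx => by
    have h1 := h.im_run hx
    nlinarith [hΦ2 P x]
  obtain ⟨hk₀, hk0, hk1⟩ := hN.hk₀
  have hsum1 : ∑ i ∈ Finset.range (n + 1), (3 ^ d * V.Dn i : ℝ) / 2 ^ l i ≤ 1 / 4 := by
    refine le_trans (Finset.sum_le_sum fun i _ => ?_) hsum
    push_cast
    refine div_le_div_of_nonneg_right ?_ (by positivity)
    have : (0 : ℝ) ≤ 3 ^ d * V.Dn i := by positivity
    nlinarith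
  have hPk := h.pk hsum1 hk₀ hN.hβ hk1 hZ hJ hN.nn.2.2.2
  have hC := Pool.Agent.ABY.H10.cmp
  refine ⟨h.rl.ctx, h.rl.fc0, h.rl.st0, ⟨(Finset.filter_subset _ _).trans h.rl.sub.1,
    fun x hx => run'_al hx⟩, h.f1.mb.trans h.rl.mb, fun x => ?_, h.ent' hPk hN1,
    h.lar' hk₀.le hPk hN1 hΦ,
    yin' hC Pool.Agent.ABY.H82.vex Pool.Agent.ABY.H13.vfr h hPk hN1 hyR hCg',
    frm' ANR.H76.cut hd h hN hN3 hr heps hS hSD hQ hKc hsum hCg' hΦ fun x => hΦ2 _ x⟩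
  by_cases hxS : x ∈ S run Q T'
  · right
    have hxA := H16.mem_al.1 (h.S_al hxS)
    refine ⟨Finset.mem_union_right _ ?_, ?_, h.dead hxS⟩
    · obtain ⟨q, hq, h1⟩ := h.near_Q hxS
      refine mem_nbh.2 ⟨q, hq, ?_⟩
      rw [h.D_eq]
      have := hN3.r1
      omega
    · rcases h.rl.chg x with h2 | h2
      · rwa [h2.2] at hxA
      · exact h2.2.1
  · obtain ⟨h1, h2, -⟩ := h.same hxS
    rcases h.rl.chg x with h3 | ⟨h3, h4, h5⟩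
    · left
      exact ⟨h1.trans h3.1, h2.trans h3.2⟩
    · right
      exact ⟨Finset.mem_union_left _ h3, h4, h2.trans h5⟩

end Cx

end Pool.Agent.KL2
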