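import Pool.Agent.Helper34_KL2.Frm

/-!
# The instance of `KF`
-/

set_option autoImplicit false

open scoped BigOperators NNReal Matrix

noncomputable section

namespace Pool.Agent.KL2

open Pool.Agent.BED (Tor)
open Pool.Agent.AND2B (net kap Gt Hr Vef res)
open Pool.Agent.ANP (Cfg Geo Fc)
open Pool.Agent.AFJ (ind LaR EE)
open Pool.Agent.LE.QF (BB KK Dl)
open Pool.Agent.ANR (Gr cE fl CutStmt)
open Pool.Agent.LTG (Fm Bd sT tT qd)
open Pool.Agent.CTC (CT fac)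
open Pool.Agent.AHH

variable {d μ : ℕ}

/-- the numbers for the form. `s` the clock, `κR` bounds the absorption of the running sites, `nQ`, `nK`,
`nS` the numbers of sites of `Q`, `K`, `Q ∪ K`, `2 ^ (k + 2)` the radius, `t` the linking distance. -/
structure KN2 (d n : ℕ) (Dn : ℕ → ℕ) (μ k t rk nS : ℕ)
    (s c₀ C₀ e₀ lam Cg k₀ β κR nQ nK W₁ Wt mm MM hK θ δ T θ₁ δ₁ T₁ : ℝ) : Prop where
  hd : 1 ≤ d
  hM : k + 2 ≤ μ
  hrk : rk ≤ t
  geo : nS * t + t + 1 ≤ 2 ^ k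
  hc : 0 < c₀
  hlam : 0 ≤ lam
  hCg : 0 ≤ Cg
  nn : 0 ≤ nQ ∧ 0 ≤ nK ∧ 0 ≤ hK ∧ 0 ≤ mm
  hk₀ : k₀ = s * c₀ ∧ 0 < k₀ ∧ k₀ ≤ 1
  hβ : β = k₀ / (8 * d)
  hκ : e₀ + s * C₀ ≤ κR
  hW₁ : 16 * Real.exp (2 * β * Zc d n fun j => 2 * Dn j) ≤ W₁
  e1 : (nS : ℝ) * (W₁ * Real.exp (-(β / 2 * 2 ^ k))) ≤ Wt
  e2 : 6 * W₁ * Real.exp (-(β / 12 * t)) ≤ Wt
  /-- the flux into `S` of a near site is at most `nQ hK + κR √(nK · 2 lam)` -/
  f1 : κR * (nQ * hK + κR * Real.sqrt (nK * (2 * lam))) ≤ θ₁ ∧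
    nQ * hK + κR * Real.sqrt (nK * (2 * lam)) ≤ δ₁ * c₀
  f2 : (nS : ℝ) * (W₁ * Real.exp (-(β * t))) ≤ θ₁ ∧
    (nS : ℝ) * (W₁ * Real.exp (-(β * t))) ≤ δ₁ * (k₀ * c₀)
  f3 : nQ + κR * Cg * nK ≤ T₁
  m2 : κR * mm ≤ θ ∧ mm ≤ δ * c₀
  m3 : MM ≤ T

theorem zc_mono {d n : ℕ} (Dn : ℕ → ℕ) : Zc d n Dn ≤ Zc d n fun j => 2 * Dn j := by
  unfold Zc
  have : ∑ i ∈ Finset.range (n + 1), (3 ^ d * Dn i : ℝ) ≤
      ∑ i ∈ Finset.range (n + 1), (3 ^ d * ((2 * Dn i : ℕ) : ℝ)) := by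
    refine Finset.sum_le_sum fun i _ => ?_
    push_cast
    have h1 : (0 : ℝ) ≤ 3 ^ d * Dn i := by positivity
    nlinarith
  linarith

namespace Cx

variable {J₀ N₀ : ℕ} {l r : ℕ → ℕ} {V : Env d (2 ^ μ)} {b : Bud} {n : ℕ}
  {T₀ : Cfg (Tor d (2 ^ μ))} {run₀ P : Finset (Tor d (2 ^ μ))} {T : Cfg (Tor d (2 ^ μ))}
  {run Q : Finset (Tor d (2 ^ μ))} {v : Tor d (2 ^ μ) → ℝ} {T' : Cfg (Tor d (2 ^ μ))}
  {rk : ℕ} {J mm MM hK : ℝ}

/-- the mass of the change near `Q` -/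
def ms (V : Env d (2 ^ μ)) (n : ℕ) (T T' : Cfg (Tor d (2 ^ μ))) (run Q : Finset (Tor d (2 ^ μ)))
    (x : Tor d (2 ^ μ)) : ℝ :=
  ∑ y ∈ Rs V n run Q T', kap V.e₀ T y * ‖net V.E V.e₀ T' x y - net V.E V.e₀ T x y‖ ^ 2

theorem net_symm (h : Cx J₀ N₀ l r V b n T₀ run₀ P T run Q v T' rk J mm MM hK)
    (x y : Tor d (2 ^ μ)) : net V.E V.e₀ T x y = net V.E V.e₀ T y x :=
  (ANR.H89.hGeq _ _ _ (H16.net_net V.E h.e0 h.gpos)).2.1 x y

theorem net_symm' (h : Cx J₀ N₀ l r V b n T₀ run₀ P T run Q v T' rk J mm MM hK)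
    (x y : Tor d (2 ^ μ)) : net V.E V.e₀ T' x y = net V.E V.e₀ T' y x :=
  (ANR.H89.hGeq _ _ _ (H16.net_net V.E h.e0 h.gpos')).2.1 x y

/-- the absorption of the running sites -/
theorem kap_run (h : Cx J₀ N₀ l r V b n T₀ run₀ P T run Q v T' rk J mm MM hK)
    {x : Tor d (2 ^ μ)} (hx : x ∈ run) :
    kap V.e₀ T x ≤ V.e₀ + (V.cl (V.kk (n + 1)) : ℝ) * V.C₀ := by
  unfold kap
  rw [h.run_clk hx]
  have h1 := (h.gau x (h.rl.sub.2 hx)).2.1
  have h2 := (le_abs_self _).trans ((Complex.abs_im_le_norm (T.mb x)).trans h1)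
  have h3 := mul_le_mul_of_nonneg_left h2 (NNReal.coe_nonneg (V.cl (V.kk (n + 1))))
  linarith

/-- the diagonal at the running sites -/
theorem im_run (h : Cx J₀ N₀ l r V b n T₀ run₀ P T run Q v T' rk J mm MM hK)
    {x : Tor d (2 ^ μ)} (hx : x ∈ run) : (net V.E V.e₀ T x x).im ≤
      V.C₀ + (b.q n (V.kk (n + 1))).mis + b.icR n * Phi V.Γ (b.tau n) n P x := by
  have hA := h.rl.sub.2 hx
  have h1 := h.rl.ent x hA x hA
  have h2 := h.rl.st0.mis x (h.rl.sub.1 hx)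
  have h3 := (h.gau x hA).2.1
  rw [h.rl.mb] at h3
  have h4 : ‖net V.E V.e₀ T x x‖ ≤ ‖net V.E V.e₀ T x x - net V.E V.e₀ T₀ x x‖ +
      (‖net V.E V.e₀ T₀ x x - T₀.mb x‖ + ‖T₀.mb x‖) := by
    have e1 : net V.E V.e₀ T x x = (net V.E V.e₀ T x x - net V.E V.e₀ T₀ x x) +
      ((net V.E V.e₀ T₀ x x - T₀.mb x) + T₀.mb x) := by ring
    calc ‖net V.E V.e₀ T x x‖ = ‖(net V.E V.e₀ T x x - net V.E V.e₀ T₀ x x) +
      ((net V.E V.e₀ T₀ x x - T₀.mb x) + T₀.mb x)‖ := by rw [← e1]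
      _ ≤ _ := (norm_add_le _ _).trans (add_le_add le_rfl (norm_add_le _ _))
  have h5 := (le_abs_self _).trans (Complex.abs_im_le_norm (net V.E V.e₀ T x x))
  linarith

theorem ww_ge (h : Cx J₀ N₀ l r V b n T₀ run₀ P T run Q v T' rk J mm MM hK)
    {x : Tor d (2 ^ μ)} (hx : x ∈ Al T) :
    (V.cl (V.kk (n + 1)) : ℝ) * V.c₀ * V.c₀ ≤ ww V.e₀ T x := by
  unfold ww
  exact mul_le_mul (h.kap_ge hx) (h.gau x hx).1 h.c0.le (h.kap_pos x).le

theorem near_Q (h : Cx J₀ N₀ l r V b n T₀ run₀ P T run Q v T' rk J mm MM hK)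
    {x : Tor d (2 ^ μ)} (hx : x ∈ S run Q T') : ∃ q ∈ Q, ANP.H61.sd x q ≤ rk := by
  rcases Finset.mem_union.1 hx with h2 | h2
  · exact ⟨x, h2, by rw [ANP.H61.sd_self]; exact Nat.zero_le _⟩
  · obtain ⟨q, hq, hxq⟩ := mem_nbh.1 (h.f1.near h2)
    rw [h.D_eq] at hxq
    exact ⟨q, hq, hxq⟩

/-- the numbers of the flux into `S` -/
theorem flux_S (h : Cx J₀ N₀ l r V b n T₀ run₀ P T run Q v T' rk J mm MM hK)
    {lam κR nQ nK : ℝ} (hlam : 0 ≤ lam) (hκR : 0 ≤ κR) (hhK : 0 ≤ hK)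
    (hκ : ∀ x ∈ run, kap V.e₀ T x ≤ κR) (hQ : (Q.card : ℝ) ≤ nQ)
    (hKc : ((Ks run T').card : ℝ) ≤ nK)
    {x : Tor d (2 ^ μ)} (hx : x ∈ Rs V n run Q T') (hL : LaR (net V.E V.e₀ T) run x ≤ 2 * lam) :
    fl (net V.E V.e₀ T) (kap V.e₀ T) (S run Q T') x ≤
      nQ * hK + κR * Real.sqrt (nK * (2 * lam)) := by
  have h1 : fl (net V.E V.e₀ T) (kap V.e₀ T) (S run Q T') x ≤
      ∑ c ∈ Q, kap V.e₀ T c * ‖net V.E V.e₀ T x c‖ ^ 2 +
      ∑ c ∈ Ks run T', kap V.e₀ T c * ‖net V.E V.e₀ T x c‖ ^ 2 := by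
    unfold fl S
    rw [← Finset.sum_union_inter]
    refine le_add_of_nonneg_right (Finset.sum_nonneg fun c _ => ?_)
    exact mul_nonneg (h.kap_pos c).le (sq_nonneg _)
  have h2 : ∑ c ∈ Q, kap V.e₀ T c * ‖net V.E V.e₀ T x c‖ ^ 2 ≤ nQ * hK := by
    refine (Finset.sum_le_card_nsmul Q _ hK fun c hc => ?_).trans ?_
    · rw [h.net_symm x c]
      exact h.f1.hK x hx c hc
    · rw [nsmul_eq_mul]
      exact mul_le_mul_of_nonneg_right hQ hhK
  have h3 : ∑ c ∈ Ks run T', kap V.e₀ T c * ‖net V.E V.e₀ T x c‖ ^ 2 ≤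
      κR * ∑ c ∈ Ks run T', KK (net V.E V.e₀ T) x c := by
    rw [Finset.mul_sum]
    refine Finset.sum_le_sum fun c hc => ?_
    exact mul_le_mul_of_nonneg_right (hκ c (Finset.mem_filter.1 hc).1) (sq_nonneg _)
  have h4 : ∑ c ∈ Ks run T', KK (net V.E V.e₀ T) x c ≤ Real.sqrt (nK * (2 * lam)) := by
    refine Real.le_sqrt_of_sq_le ?_
    refine (sq_sum_le_card_mul_sum_sq (s := Ks run T')
      (f := fun c => KK (net V.E V.e₀ T) x c)).trans ?_
    refine mul_le_mul hKc ?_ (Finset.sum_nonneg fun _ _ => sq_nonneg _)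
      (le_trans (Nat.cast_nonneg _) hKc)
    refine le_trans ?_ hL
    unfold LaR
    exact Finset.sum_le_sum_of_subset_of_nonneg (Finset.filter_subset _ _) fun _ _ _ => sq_nonneg _
  have h5 := mul_le_mul_of_nonneg_left h4 hκR
  linarith

open Classical in
/-- THE INSTANCE -/
theorem kf (h : Cx J₀ N₀ l r V b n T₀ run₀ P T run Q v T' rk J mm MM hK)
    {k t nS : ℕ}
    {Cg k₀ β κR nQ nK W₁ Wt θ δ Th θ₁ δ₁ T₁ : ℝ}
    (hN : KN2 d n V.Dn μ k t rk nS (V.cl (V.kk (n + 1)) : ℝ) V.c₀ V.C₀ V.e₀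
      (b.q n (V.kk (n + 1))).lam Cg k₀ β κR nQ nK W₁ Wt mm MM hK θ δ Th θ₁ δ₁ T₁)
    (hr : r n = k + 2)
    (hS : (S run Q T').card ≤ nS) (hSD : (S run Q T').card ≤ V.Dn n)
    (hQ : (Q.card : ℝ) ≤ nQ) (hKc : ((Ks run T').card : ℝ) ≤ nK)
    (hsum : ∑ i ∈ Finset.range (n + 1), (3 ^ d * (2 * V.Dn i : ℕ) : ℝ) / 2 ^ l i ≤ 1 / 4)
    (hCg : ∀ x ∈ run, (net V.E V.e₀ T x x).im ≤ Cg)
    (hΦ : ∀ x, b.lR n * Phi V.Γ (b.tau n) n P x ≤ 1) :
    KF Q (S run Q T') (Al T) (net V.E V.e₀ T) (net V.E V.e₀ T') (kap V.e₀ T) (ww V.e₀ T)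
      (ms V n T T' run Q) k t W₁ β Wt θ δ Th θ₁ δ₁ T₁ := by
  obtain ⟨hk₀, hk0, hk1⟩ := hN.hk₀
  obtain ⟨nn1, nn2, nn3, nn4⟩ := hN.nn
  have hd' : (1 : ℝ) ≤ d := by exact_mod_cast hN.hd
  have hβ0 : 0 < β := by
    rw [hN.hβ]
    positivity
  have hβ1 : β ≤ 1 := by
    rw [hN.hβ, div_le_one (by positivity)]
    linarith
  have hW₁0 : 0 ≤ W₁ := le_trans (by positivity) hN.hW₁
  have hlam := hN.hlam
  have hκR0 : 0 ≤ κR := by
    refine le_trans ?_ hN.hκ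
    obtain ⟨x, hx⟩ := h.ne
    have h1 := (h.gau x (H16.mem_al.2 (h.fro x hx).2)).2.1
    have h2 : 0 ≤ V.C₀ := (norm_nonneg _).trans h1
    have := h.e0
    positivity
  have hκ : ∀ x ∈ run, kap V.e₀ T x ≤ κR := fun x hx => (h.kap_run hx).trans hN.hκ
  have hL : ∀ x ∈ Al T, LaR (net V.E V.e₀ T) run x ≤ 2 * (b.q n (V.kk (n + 1))).lam := by
    intro x hx
    refine (h.rl.lar x hx).trans ?_
    have := hΦ x
    nlinarith
  have hAS : ∀ x ∈ Al T \ S run Q T', x ∈ Al T' := fun x hx => by rwa [h.al_eq]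
  have hρ : V.Γ.ρ n = 2 ^ (k + 2) := by rw [h.rho_eq, hr]
  have hnearS : ∀ x ∈ Al T', nr (S run Q T') t x → x ∈ Rs V n run Q T' := by
    rintro x hx ⟨q, hq, hxq⟩
    obtain ⟨q', hq', h1⟩ := h.near_Q hq
    refine h.near_run hx (mem_nbh.2 ⟨q', hq', ?_⟩)
    rw [h.D_eq, hρ]
    have h2 := ANP.H61.sd_tri x q q'
    have h3 := hN.hrk
    have h4 := hN.geo
    have h5 : (2 : ℕ) ^ (k + 2) = 4 * 2 ^ k := by ring
    rw [h5]
    have h6 : 0 ≤ nS * t := Nat.zero_le _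
    omega
  have hms0 : ∀ x, 0 ≤ ms V n T T' run Q x := fun x => Finset.sum_nonneg fun y _ =>
    mul_nonneg (h.kap_pos y).le (sq_nonneg _)
  have hfl : ∀ x ∈ Rs V n run Q T', fl (net V.E V.e₀ T) (kap V.e₀ T) (S run Q T') x ≤
      nQ * hK + κR * Real.sqrt (nK * (2 * (b.q n (V.kk (n + 1))).lam)) := fun x hx =>
    h.flux_S hlam hκR0 nn3 hκ hQ hKc hx (hL x (h.al_sub (h.Rs_al hx)))
  have hWW : 2 * Real.exp (2 * (k₀ / (8 * d)) * Zc d n V.Dn) ≤ W₁ ∧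
      2 * Real.exp (2 * (k₀ / (8 * d)) * Zc d n fun j => 2 * V.Dn j) ≤ W₁ ∧
      16 * Real.exp (2 * β * Zc d n V.Dn) ≤ W₁ := by
    have e1 := zc_mono (d := d) (n := n) V.Dn
    have e2 := hN.hW₁
    rw [← hN.hβ]
    have e3 : Real.exp (2 * β * Zc d n V.Dn) ≤
        Real.exp (2 * β * Zc d n fun j => 2 * V.Dn j) :=
      Real.exp_le_exp.2 (mul_le_mul_of_nonneg_left e1 (by positivity))
    have e4 := Real.exp_pos (2 * β * Zc d n V.Dn)
    have e5 := Real.exp_pos (2 * β * Zc d n fun j => 2 * V.Dn j)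
    refine ⟨?_, ?_, ?_⟩ <;> linarith
  have hSc : ((S run Q T').card : ℝ) ≤ nS := by exact_mod_cast hS
  have hθ₁0 : 0 ≤ θ₁ := le_trans (by positivity) hN.f1.1
  have hδ₁0 : 0 ≤ δ₁ := by
    have := hN.f1.2
    have h1 : 0 ≤ δ₁ * V.c₀ := le_trans (by positivity) this
    exact nonneg_of_mul_nonneg_left h1 hN.hc
  exact {
    hM := Nat.pow_le_pow_right (by norm_num) hN.hM
    hQS := Finset.subset_union_left
    hSA := h.S_al
    hS := h.S_ne
    hQt := fun x hx => by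
      obtain ⟨q, hq, h1⟩ := h.near_Q hx
      exact ⟨q, hq, h1.trans hN.hrk⟩
    hgeo := by
      have h1 := Nat.mul_le_mul_right t hS
      have h2 := hN.geo
      omega
    hs := h.net_symm
    hs' := h.net_symm'
    hκ := fun x _ => (h.kap_pos x).le
    hw := fun x hx => H16.ww_pos h.e0 h.gpos hx
    hc := ⟨hβ0, hβ1⟩
    hW₁ := hW₁0
    pos := by
      refine ⟨le_trans (by positivity) hN.m2.1, ?_, hθ₁0, hδ₁0⟩
      exact nonneg_of_mul_nonneg_left (nn4.trans hN.m2.2) hN.hc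
    d1 := fun x _ y _ => by
      have hsum1 : ∑ i ∈ Finset.range (n + 1), (3 ^ d * V.Dn i : ℝ) / 2 ^ l i ≤ 1 / 4 := by
        refine le_trans (Finset.sum_le_sum fun i _ => ?_) hsum
        push_cast
        refine div_le_div_of_nonneg_right ?_ (by positivity)
        have : (0 : ℝ) ≤ 3 ^ d * V.Dn i := by positivity
        nlinarith
      have h1 := dec h.hl (E := V.E) h.e0 h.im_nonneg h.dens hsum1 hk0 hk1
        (fun x hx => hk₀ ▸ h.al_of x hx) x y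
      refine h1.trans ?_
      rw [← hN.hβ]
      refine mul_le_mul_of_nonneg_right ?_ (Real.exp_pos _).le
      have := hWW.1
      rwa [← hN.hβ] at this
    d2 := fun x hx y hy => by
      have h1 := dec h.hl (E := V.E) h.e0 h.im_nonneg' (h.dens' hSD) hsum hk0 hk1
        (fun x hx => hk₀ ▸ h.al_of' x hx) x y
      rw [h.kap_eq (Finset.mem_sdiff.1 hx).2, h.kap_eq (Finset.mem_sdiff.1 hy).2] at h1
      refine h1.trans ?_
      rw [← hN.hβ]
      refine mul_le_mul_of_nonneg_right ?_ (Real.exp_pos _).le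
      have := hWW.2.1
      rwa [← hN.hβ] at this
    d3 := fun x hx y hy => by
      have hsum1 : ∑ i ∈ Finset.range (n + 1), (3 ^ d * V.Dn i : ℝ) / 2 ^ l i ≤ 1 / 4 := by
        refine le_trans (Finset.sum_le_sum fun i _ => ?_) hsum
        push_cast
        refine div_le_div_of_nonneg_right ?_ (by positivity)
        have : (0 : ℝ) ≤ 3 ^ d * V.Dn i := by positivity
        nlinarith
      obtain ⟨φ, hU, hφ⟩ := upd_all h.hl (E := V.E) (k₀ := k₀) h.S_ne h.e0 h.im_nonneg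
        h.im_nonneg' (fun x hx => h.same hx) h.dens hsum1 hk0 hk1
        (fun x hx => hk₀ ▸ h.al_of x hx) (fun x hx => hk₀ ▸ h.al_of' x hx)
      rw [← hN.hβ] at hU
      obtain ⟨x', hx', h1⟩ := hφ x
      refine ⟨x', hx', ?_⟩
      have h2 := hU.ent_off (Finset.mem_sdiff.1 hx).2 (Finset.mem_sdiff.1 hy).2
      have h3 : kap V.e₀ T x * kap V.e₀ T y *
          ‖net V.E V.e₀ T x y - net V.E V.e₀ T' x y‖ ^ 2 ≤
          (4 * Real.exp (-(β * (φ x + φ y)))) ^ 2 := h2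
      refine h3.trans ?_
      rw [mul_pow, ← Real.exp_nat_mul]
      have h4 : Real.exp (((2 : ℕ) : ℝ) * -(β * (φ x + φ y))) ≤
          Real.exp (2 * β * Zc d n V.Dn) * Real.exp (-(β * ANP.H61.sd x x')) := by
        rw [← Real.exp_add]
        refine Real.exp_le_exp.2 ?_
        have h5 := hU.plt.nn y
        rw [ANP.H61.sd_comm x x']
        push_cast
        nlinarith
      calc (4 : ℝ) ^ 2 * Real.exp (((2 : ℕ) : ℝ) * -(β * (φ x + φ y))) ≤
          (4 : ℝ) ^ 2 * (Real.exp (2 * β * Zc d n V.Dn) *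
            Real.exp (-(β * ANP.H61.sd x x'))) := mul_le_mul_of_nonneg_left h4 (by norm_num)
        _ = 16 * Real.exp (2 * β * Zc d n V.Dn) * Real.exp (-(β * ANP.H61.sd x x')) := by ring
        _ ≤ _ := mul_le_mul_of_nonneg_right hWW.2.2 (Real.exp_pos _).le
    e1 := by
      refine le_trans ?_ hN.e1
      exact mul_le_mul_of_nonneg_right hSc (by positivity)
    e2 := hN.e2
    f1 := fun x hx hq => by
      obtain ⟨q, hq, hxq⟩ := hq
      have hxA := hAS x hx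
      have hR : x ∈ Rs V n run Q T' :=
        h.near_run hxA (mem_nbh.2 ⟨q, hq, by rw [h.D_eq, hρ]; exact hxq⟩)
      have h1 := hfl x hR
      have h2 := hκ x (h.Rs_run hR)
      have h3 := h.kap_pos x
      have hfl0 : 0 ≤ fl (net V.E V.e₀ T) (kap V.e₀ T) (S run Q T') x :=
        Finset.sum_nonneg fun c _ => mul_nonneg (h.kap_pos c).le (sq_nonneg _)
      refine ⟨(mul_le_mul h2 h1 hfl0 hκR0).trans hN.f1.1, ?_⟩
      have h4 := (h.gau x (h.al_sub hxA)).1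
      have h5 : fl (net V.E V.e₀ T) (kap V.e₀ T) (S run Q T') x ≤ δ₁ * gg T x :=
        h1.trans (hN.f1.2.trans (mul_le_mul_of_nonneg_left h4 hδ₁0))
      calc kap V.e₀ T x * fl (net V.E V.e₀ T) (kap V.e₀ T) (S run Q T') x ≤
          kap V.e₀ T x * (δ₁ * gg T x) := mul_le_mul_of_nonneg_left h5 h3.le
        _ = δ₁ * ww V.e₀ T x := by unfold ww; ring
    f2 := fun x hx => by
      have h1 : ((S run Q T').card : ℝ) * (W₁ * Real.exp (-(β * t))) ≤
          (nS : ℝ) * (W₁ * Real.exp (-(β * t))) := mul_le_mul_of_nonneg_right hSc (by positivity)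
      refine ⟨h1.trans hN.f2.1, (h1.trans hN.f2.2).trans ?_⟩
      refine mul_le_mul_of_nonneg_left ?_ hδ₁0
      rw [hk₀]
      exact h.ww_ge (h.S_al hx)
    f3 := by
      have hge := ANR.H89.hGeq _ _ _ (H16.net_net V.E h.e0 h.gpos)
      have h1 : ∀ c, ∑ x ∈ Al T, kap V.e₀ T x * ‖net V.E V.e₀ T c x‖ ^ 2 ≤
          (net V.E V.e₀ T c c).im := by
        intro c
        rw [← H16.net_ward V.E h.e0 h.gpos c]
        exact Finset.sum_le_sum_of_subset_of_nonneg (Finset.subset_univ _) fun x _ _ =>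
          mul_nonneg (h.kap_pos x).le (sq_nonneg _)
      have h2 : ∀ c, kap V.e₀ T c * ∑ x ∈ Al T, kap V.e₀ T x * ‖net V.E V.e₀ T c x‖ ^ 2 ≤
          kap V.e₀ T c * (net V.E V.e₀ T c c).im := fun c =>
        mul_le_mul_of_nonneg_left (h1 c) (h.kap_pos c).le
      refine (Finset.sum_le_sum fun c _ => h2 c).trans ?_
      unfold S
      have h3 : ∀ c, 0 ≤ kap V.e₀ T c * (net V.E V.e₀ T c c).im := fun c => by
        refine mul_nonneg (h.kap_pos c).le ?_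
        refine le_trans ?_ (h1 c)
        exact Finset.sum_nonneg fun x _ => mul_nonneg (h.kap_pos x).le (sq_nonneg _)
      have h4 : ∑ c ∈ Q ∪ Ks run T', kap V.e₀ T c * (net V.E V.e₀ T c c).im ≤
          ∑ c ∈ Q, kap V.e₀ T c * (net V.E V.e₀ T c c).im +
          ∑ c ∈ Ks run T', kap V.e₀ T c * (net V.E V.e₀ T c c).im := by
        rw [← Finset.sum_union_inter]
        exact le_add_of_nonneg_right (Finset.sum_nonneg fun c _ => h3 c)
      have h5 : ∑ c ∈ Q, kap V.e₀ T c * (net V.E V.e₀ T c c).im ≤ nQ := by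
        refine (Finset.sum_le_card_nsmul Q _ 1 fun c _ => ?_).trans ?_
        · have e1 : kap V.e₀ T c * ‖net V.E V.e₀ T c c‖ ≤ 1 := hge.2.2.2.1 c
          have e2 : (net V.E V.e₀ T c c).im ≤ ‖net V.E V.e₀ T c c‖ :=
            (le_abs_self _).trans (Complex.abs_im_le_norm _)
          exact (mul_le_mul_of_nonneg_left e2 (h.kap_pos c).le).trans e1
        · rw [nsmul_eq_mul, mul_one]
          exact hQ
      have h6 : ∑ c ∈ Ks run T', kap V.e₀ T c * (net V.E V.e₀ T c c).im ≤ κR * Cg * nK := by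
        refine (Finset.sum_le_card_nsmul (Ks run T') _ (κR * Cg) fun c hc => ?_).trans ?_
        · have hcr := (Finset.mem_filter.1 hc).1
          refine mul_le_mul (hκ c hcr) (hCg c hcr) ?_ hκR0
          refine le_trans ?_ (h1 c)
          exact Finset.sum_nonneg fun x _ => mul_nonneg (h.kap_pos x).le (sq_nonneg _)
        · rw [nsmul_eq_mul, mul_comm]
          exact mul_le_mul_of_nonneg_left hKc (mul_nonneg hκR0 hN.hCg)
      have h7 := hN.f3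
      linarith
    m0 := fun x _ _ => hms0 x
    m1 := fun x hx hn => by
      unfold ms
      refine le_trans (le_of_eq ?_) (Finset.sum_le_sum_of_subset_of_nonneg
        (s := (Al T \ S run Q T').filter (nr (S run Q T') t)) ?_ ?_)
      · exact Finset.sum_congr rfl fun y _ => by rw [norm_sub_rev]
      · intro y hy
        obtain ⟨h1, h2⟩ := Finset.mem_filter.1 hy
        exact hnearS y (hAS y h1) h2
      · intro y _ _
        exact mul_nonneg (h.kap_pos y).le (sq_nonneg _)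
    m2 := fun x hx hn => by
      have hxA := hAS x hx
      have hR := hnearS x hxA hn
      have h1 : ms V n T T' run Q x ≤ mm := h.f1.mx x hR
      have h2 := hκ x (h.Rs_run hR)
      refine ⟨(mul_le_mul h2 h1 (hms0 x) hκR0).trans hN.m2.1, ?_⟩
      have h4 := (h.gau x (h.al_sub hxA)).1
      have hδ0 : 0 ≤ δ := nonneg_of_mul_nonneg_left (nn4.trans hN.m2.2) hN.hc
      have h5 : ms V n T T' run Q x ≤ δ * gg T x :=
        h1.trans (hN.m2.2.trans (mul_le_mul_of_nonneg_left h4 hδ0))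
      calc kap V.e₀ T x * ms V n T T' run Q x ≤
          kap V.e₀ T x * (δ * gg T x) := mul_le_mul_of_nonneg_left h5 (h.kap_pos x).le
        _ = δ * ww V.e₀ T x := by unfold ww; ring
    m3 := by
      refine le_trans ?_ (h.f1.MM.trans hN.m3)
      refine Finset.sum_le_sum_of_subset_of_nonneg (s := (Al T \ S run Q T').filter
        (nr (S run Q T') t)) (f := fun x => kap V.e₀ T x * ms V n T T' run Q x) ?_ ?_
      · intro y hy
        obtain ⟨h1, h2⟩ := Finset.mem_filter.1 hy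
        exact hnearS y (hAS y h1) h2
      · intro y _ _
        exact mul_nonneg (h.kap_pos y).le (hms0 y) }

end Cx

end Pool.Agent.KL2
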