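import Pool.Agent.Helper34_KL2.Far
import Pool.Agent.Helper44_ABY.VST
import Pool.Agent.Helper61_AHH.Psi

/-!
# Entries, `∑ |G|⁴` and block Y after the release of a cluster
-/

set_option autoImplicit false

open scoped BigOperators NNReal Matrix

noncomputable section

namespace Pool.Agent.KL2

open Pool.Agent.BED (Tor)
open Pool.Agent.AND2B (net kap Gt Hr Vef res)
open Pool.Agent.ANP (Cfg Geo Fc)
open Pool.Agent.AFJ (ind LaR)
open Pool.Agent.LE.QF (BB KK)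
open Pool.Agent.ABY
open Pool.Agent.AHH

section pure

variable {X : Type} [Fintype X] [DecidableEq X]

theorem young2 {a b ζ : ℝ} (hζ : 0 < ζ) : (a + b) ^ 2 ≤ (1 + ζ) * a ^ 2 + (1 + 1 / ζ) * b ^ 2 := by
  obtain ⟨t, ht⟩ : ∃ t : ℝ, t = 1 / ζ := ⟨_, rfl⟩
  have hte : t * ζ = 1 := by rw [ht]; field_simp
  have ht0 : 0 < t := by rw [ht]; positivity
  rw [← ht]
  have h1 : 0 ≤ t * (ζ * a - b) ^ 2 := mul_nonneg ht0.le (sq_nonneg _)
  have h2 : t * (ζ * a - b) ^ 2 = ζ * a ^ 2 - 2 * a * b + t * b ^ 2 := by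
    linear_combination (ζ * a ^ 2 - 2 * a * b) * hte
  rw [h2] at h1
  nlinarith

theorem young4 {a b ζ : ℝ} (hζ : 0 < ζ) (hζ1 : ζ ≤ 1) :
    (a + b) ^ 4 ≤ (1 + 7 * ζ) * a ^ 4 + 8 / ζ ^ 3 * b ^ 4 := by
  have h1 := young2 (a := a) (b := b) hζ
  have h2 := young2 (a := (1 + ζ) * a ^ 2) (b := (1 + 1 / ζ) * b ^ 2) hζ
  have h3 : (a + b) ^ 4 ≤ ((1 + ζ) * a ^ 2 + (1 + 1 / ζ) * b ^ 2) ^ 2 := by
    have : (a + b) ^ 4 = ((a + b) ^ 2) ^ 2 := by ring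
    rw [this]
    exact pow_le_pow_left₀ (sq_nonneg _) h1 2
  have h4 : (1 + ζ) * ((1 + ζ) * a ^ 2) ^ 2 ≤ (1 + 7 * ζ) * a ^ 4 := by
    have e : (1 + ζ) * ((1 + ζ) * a ^ 2) ^ 2 = (1 + ζ) ^ 3 * a ^ 4 := by ring
    rw [e]
    refine mul_le_mul_of_nonneg_right ?_ (by positivity)
    nlinarith [sq_nonneg ζ, mul_nonneg hζ.le hζ.le, mul_nonneg (mul_nonneg hζ.le hζ.le) hζ.le]
  have h5 : (1 + 1 / ζ) * ((1 + 1 / ζ) * b ^ 2) ^ 2 ≤ 8 / ζ ^ 3 * b ^ 4 := by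
    have e : (1 + 1 / ζ) * ((1 + 1 / ζ) * b ^ 2) ^ 2 = (1 + 1 / ζ) ^ 3 * b ^ 4 := by ring
    rw [e]
    refine mul_le_mul_of_nonneg_right ?_ (by positivity)
    have e2 : 8 / ζ ^ 3 = (2 / ζ) ^ 3 := by rw [div_pow]; norm_num
    rw [e2]
    refine pow_le_pow_left₀ (by positivity) ?_ 3
    have e3 : (1 : ℝ) ≤ 1 / ζ := by
      rw [le_div_iff₀ hζ]; linarith
    have e4 : 2 / ζ = 1 / ζ + 1 / ζ := by ring
    linarith
  linarith

/-- fourth powers after a change which is small in fourth powers -/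
theorem lar_new {G G' : Matrix X X ℂ} {R R' : Finset X} (hR : R' ⊆ R) {x : X} {lam ζ B : ℝ}
    (hζ : 0 < ζ) (hζ1 : ζ ≤ 1) (h1 : LaR G R x ≤ 2 * lam)
    (h2 : ∑ y ∈ R', ‖G' x y - G x y‖ ^ 4 ≤ B) (hB : B ≤ ζ ^ 4 * lam) :
    LaR G' R' x ≤ LaR G R x + 22 * ζ * lam := by
  have h3 : LaR G' R' x ≤ (1 + 7 * ζ) * LaR G R' x +
      8 / ζ ^ 3 * ∑ y ∈ R', ‖G' x y - G x y‖ ^ 4 := by
    unfold LaR KK
    rw [Finset.mul_sum, Finset.mul_sum, ← Finset.sum_add_distrib]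
    refine Finset.sum_le_sum fun y _ => ?_
    have e1 : ‖G' x y‖ ≤ ‖G x y‖ + ‖G' x y - G x y‖ := by
      have := norm_add_le (G x y) (G' x y - G x y)
      rwa [add_sub_cancel] at this
    have e2 : (‖G' x y‖ ^ 2) ^ 2 = ‖G' x y‖ ^ 4 := by ring
    have e3 : (‖G x y‖ ^ 2) ^ 2 = ‖G x y‖ ^ 4 := by ring
    rw [e2, e3]
    exact (pow_le_pow_left₀ (norm_nonneg _) e1 4).trans (young4 hζ hζ1)
  have h4 : LaR G R' x ≤ LaR G R x := by
    unfold LaR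
    exact Finset.sum_le_sum_of_subset_of_nonneg hR fun y _ _ => sq_nonneg _
  have h5 : 8 / ζ ^ 3 * ∑ y ∈ R', ‖G' x y - G x y‖ ^ 4 ≤ 8 * ζ * lam := by
    refine (mul_le_mul_of_nonneg_left (h2.trans hB) (by positivity)).trans (le_of_eq ?_)
    field_simp
  have h6 : (1 + 7 * ζ) * LaR G R' x ≤ LaR G R x + 14 * ζ * lam := by
    have h7 : (1 + 7 * ζ) * LaR G R' x ≤ (1 + 7 * ζ) * LaR G R x :=
      mul_le_mul_of_nonneg_left h4 (by positivity)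
    nlinarith
  linarith

/-- the pair of block Y without virtual clocks -/
theorem yin_new {G G' : Matrix X X ℂ} {w : X → ℝ} {a : X} {ζ Cg m : ℝ}
    (hw : ∀ b, 0 ≤ w b) (hζ : 0 < ζ) (hζ1 : ζ ≤ 1)
    (h1 : ∑ b, w b * ‖G a b‖ ^ 2 ≤ Cg) (h2 : ∑ b, w b * ‖G' a b - G a b‖ ^ 2 ≤ m)
    (hm : m ≤ ζ ^ 2) :
    ‖vir (BB G') 0 w a‖ + vir (KK G') 0 w a ≤
      ‖vir (BB G) 0 w a‖ + vir (KK G) 0 w a + 2 * ζ * (Cg + 2) := by
  have hv : ∀ G : Matrix X X ℂ, vir (BB G) 0 w a = ∑ b, G a b ^ 2 * ((w b : ℝ) : ℂ) :=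
    fun G => H44.vir_zero (BB G) w a
  have hv' : ∀ G : Matrix X X ℂ, vir (KK G) 0 w a = ∑ b, ‖G a b‖ ^ 2 * w b :=
    fun G => H44.vir_zero (KK G) w a
  have key : ∑ b, w b * (‖G' a b - G a b‖ * (2 * ‖G a b‖ + ‖G' a b - G a b‖)) ≤ ζ * (Cg + 2) := by
    have h3 : ∀ b, w b * (‖G' a b - G a b‖ * (2 * ‖G a b‖ + ‖G' a b - G a b‖)) ≤
        ζ * (w b * ‖G a b‖ ^ 2) + (1 / ζ + 1) * (w b * ‖G' a b - G a b‖ ^ 2) := by
      intro b
      have h4 : ‖G' a b - G a b‖ * (2 * ‖G a b‖ + ‖G' a b - G a b‖) ≤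
          ζ * ‖G a b‖ ^ 2 + (1 / ζ + 1) * ‖G' a b - G a b‖ ^ 2 := by
        have := young2 (a := ‖G a b‖) (b := ‖G' a b - G a b‖) hζ
        nlinarith [sq_nonneg ‖G' a b - G a b‖]
      have := mul_le_mul_of_nonneg_left h4 (hw b)
      linarith
    refine (Finset.sum_le_sum fun b _ => h3 b).trans ?_
    rw [Finset.sum_add_distrib, ← Finset.mul_sum, ← Finset.mul_sum]
    have h5 := mul_le_mul_of_nonneg_left h1 hζ.le
    have h6 : (1 / ζ + 1) * ∑ b, w b * ‖G' a b - G a b‖ ^ 2 ≤ 2 * ζ := by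
      refine (mul_le_mul_of_nonneg_left (h2.trans hm) (by positivity)).trans ?_
      have : (1 / ζ + 1) * ζ ^ 2 = ζ + ζ ^ 2 := by field_simp
      rw [this]
      nlinarith
    linarith
  have hB : ‖vir (BB G') 0 w a‖ ≤ ‖vir (BB G) 0 w a‖ + ζ * (Cg + 2) := by
    rw [hv, hv]
    have e1 : ∑ b, G' a b ^ 2 * ((w b : ℝ) : ℂ) = ∑ b, G a b ^ 2 * ((w b : ℝ) : ℂ) +
        ∑ b, (G' a b ^ 2 - G a b ^ 2) * ((w b : ℝ) : ℂ) := by
      rw [← Finset.sum_add_distrib]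
      exact Finset.sum_congr rfl fun b _ => by ring
    rw [e1]
    refine (norm_add_le _ _).trans (add_le_add le_rfl ?_)
    refine (norm_sum_le _ _).trans (le_trans (Finset.sum_le_sum fun b _ => ?_) key)
    have e2 : (G' a b ^ 2 - G a b ^ 2) * ((w b : ℝ) : ℂ) =
        ((w b : ℝ) : ℂ) * ((G' a b - G a b) * (2 * G a b + (G' a b - G a b))) := by ring
    rw [e2, norm_mul, norm_mul, Complex.norm_real, Real.norm_eq_abs, abs_of_nonneg (hw b)]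
    refine mul_le_mul_of_nonneg_left (mul_le_mul_of_nonneg_left ?_ (norm_nonneg _)) (hw b)
    refine (norm_add_le _ _).trans (add_le_add (le_of_eq ?_) le_rfl)
    rw [norm_mul]
    norm_num
  have hK : vir (KK G') 0 w a ≤ vir (KK G) 0 w a + ζ * (Cg + 2) := by
    rw [hv', hv']
    have e1 : ∑ b, ‖G' a b‖ ^ 2 * w b ≤ ∑ b, (‖G a b‖ ^ 2 * w b +
        w b * (‖G' a b - G a b‖ * (2 * ‖G a b‖ + ‖G' a b - G a b‖))) := by
      refine Finset.sum_le_sum fun b _ => ?_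
      have e2 : ‖G' a b‖ ≤ ‖G a b‖ + ‖G' a b - G a b‖ := by
        have := norm_add_le (G a b) (G' a b - G a b)
        rwa [add_sub_cancel] at this
      have e3 := pow_le_pow_left₀ (norm_nonneg _) e2 2
      have e4 := mul_le_mul_of_nonneg_right e3 (hw b)
      refine e4.trans (le_of_eq ?_)
      ring
    refine e1.trans ?_
    rw [Finset.sum_add_distrib]
    linarith
  linarith

end pure

/-- the numbers for `ent`, `lar`, `yin` -/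
structure KN1 (k₀ c₀ lam icR lR yR tau Cg J₁ m₁ E₁ c η : ℝ) (ρ : ℕ) : Prop where
  hk : 0 < k₀
  hlam : 0 ≤ lam
  htau : 0 < tau ∧ tau ≤ 1
  hJ1 : 0 ≤ J₁
  hE1 : 0 ≤ E₁
  hCg : 0 ≤ Cg
  hrho : 0 < ρ
  heta : 0 < η ∧ η ≤ 1 ∧ η ≤ icR ∧ 22 * η ≤ lR ∧ 2 * η * (Cg + 2) ≤ yR * c₀ ∧ η ^ 8 ≤ k₀ * lam
  far : E₁ * Real.exp (-(c / 2 * ρ)) ≤ (η * tau) ^ 4 ∧ 8 ≤ c * ρ
  e : J₁ ≤ icR
  l : ∃ ζ : ℝ, 0 < ζ ∧ ζ ≤ 1 ∧ 22 * ζ ≤ lR ∧ J₁ ^ 2 * (m₁ / k₀) ≤ ζ ^ 4 * lam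
  y : ∃ ζ : ℝ, 0 < ζ ∧ ζ ≤ 1 ∧ 2 * ζ * (Cg + 2) ≤ yR * c₀ ∧ m₁ ≤ ζ ^ 2

variable {d μ : ℕ}

/-- the potential of the cluster at near and far sites, and the tail -/
theorem far_le {k₀ c₀ lam icR lR yR tau Cg J₁ m₁ E₁ c η : ℝ} {ρ : ℕ}
    (h : KN1 k₀ c₀ lam icR lR yR tau Cg J₁ m₁ E₁ c η ρ) {D : ℕ} (hD : ρ < D) :
    E₁ * Real.exp (-(c * D)) ≤ (η * (tau * Real.exp (-((D : ℝ) / ρ)))) ^ 4 := by
  have hρ : (0 : ℝ) < ρ := by exact_mod_cast h.hrho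
  have hD' : (ρ : ℝ) ≤ D := by exact_mod_cast hD.le
  obtain ⟨h1, h2⟩ := h.far
  have hc : 0 < c := by
    by_contra hc
    push Not at hc
    nlinarith
  have e1 : Real.exp (-(c * D)) ≤ Real.exp (-(c / 2 * ρ)) * Real.exp (-((D : ℝ) / ρ)) ^ 4 := by
    rw [← Real.exp_nat_mul, ← Real.exp_add]
    refine Real.exp_le_exp.2 ?_
    have e2 : ((4 : ℕ) : ℝ) * -((D : ℝ) / ρ) = -(4 * D / ρ) := by push_cast; ring
    rw [e2]
    have e3 : 4 * (D : ℝ) / ρ ≤ c / 2 * D := by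
      rw [div_le_iff₀ hρ]
      nlinarith [(Nat.cast_nonneg D : (0 : ℝ) ≤ D)]
    nlinarith
  calc E₁ * Real.exp (-(c * D)) ≤
      E₁ * (Real.exp (-(c / 2 * ρ)) * Real.exp (-((D : ℝ) / ρ)) ^ 4) :=
        mul_le_mul_of_nonneg_left e1 h.hE1
    _ = E₁ * Real.exp (-(c / 2 * ρ)) * Real.exp (-((D : ℝ) / ρ)) ^ 4 := by ring
    _ ≤ (η * tau) ^ 4 * Real.exp (-((D : ℝ) / ρ)) ^ 4 :=
        mul_le_mul_of_nonneg_right h1 (by positivity)
    _ = _ := by ring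

namespace Cx

variable {J₀ N₀ : ℕ} {l r : ℕ → ℕ} {V : Env d (2 ^ μ)} {b : Bud} {n : ℕ}
  {T₀ : Cfg (Tor d (2 ^ μ))} {run₀ P : Finset (Tor d (2 ^ μ))} {T : Cfg (Tor d (2 ^ μ))}
  {run Q : Finset (Tor d (2 ^ μ))} {v : Tor d (2 ^ μ) → ℝ} {T' : Cfg (Tor d (2 ^ μ))}
  {rk : ℕ} {J mm MM hK : ℝ}

/-- the potential of the new cluster -/
def pot (V : Env d (2 ^ μ)) (b : Bud) (n : ℕ) (Q : Finset (Tor d (2 ^ μ))) (x : Tor d (2 ^ μ)) :
    ℝ := Phi V.Γ (b.tau n) n (V.Γ.nbh Q (V.Γ.ρ n)) x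

theorem phi_eq (h : Cx J₀ N₀ l r V b n T₀ run₀ P T run Q v T' rk J mm MM hK)
    (x : Tor d (2 ^ μ)) : Phi V.Γ (b.tau n) n (P ∪ V.Γ.nbh Q (V.Γ.ρ n)) x =
      Phi V.Γ (b.tau n) n P x + pot V b n Q x :=
  H61.Phi_union V.Γ _ n P _ h.disj x

theorem pot_near (h : Cx J₀ N₀ l r V b n T₀ run₀ P T run Q v T' rk J mm MM hK)
    (hτ : 0 ≤ b.tau n) {x : Tor d (2 ^ μ)} (hx : x ∈ V.Γ.nbh Q (V.Γ.ρ n)) : 1 ≤ pot V b n Q x :=
  H61.one_le_Phi V.Γ _ hτ n _ x hx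

theorem pot_far (h : Cx J₀ N₀ l r V b n T₀ run₀ P T run Q v T' rk J mm MM hK)
    (hτ : 0 ≤ b.tau n) {q : Tor d (2 ^ μ)} (hq : q ∈ Q) (x : Tor d (2 ^ μ)) :
    b.tau n * Real.exp (-((V.Γ.D x q : ℝ) / V.Γ.ρ n)) ≤ pot V b n Q x := by
  refine H61.exp_le_Phi V.Γ _ hτ n _ x q ?_
  exact mem_nbh.2 ⟨q, hq, by rw [h.geo.self]; exact Nat.zero_le _⟩

/-- the clocks of the running sites -/
theorem run_clk (h : Cx J₀ N₀ l r V b n T₀ run₀ P T run Q v T' rk J mm MM hK)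
    {x : Tor d (2 ^ μ)} (hx : x ∈ run) : T.s x = V.cl (V.kk (n + 1)) := by
  have h1 := h.fc.runs x hx
  rwa [if_neg (Finset.notMem_empty x)] at h1

theorem mem_run' {x : Tor d (2 ^ μ)} : x ∈ run.filter (fun x => T'.s x ≠ 0) ↔
    x ∈ run ∧ T'.s x ≠ 0 := Finset.mem_filter

theorem run'_al {x : Tor d (2 ^ μ)} (hx : x ∈ run.filter (fun x => T'.s x ≠ 0)) : x ∈ Al T' :=
  H16.mem_al.2 (pos_iff_ne_zero.2 (Finset.mem_filter.1 hx).2)

variable {Cg J₁ m₁ E₁ c η k₀ : ℝ}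

/-- the tail at a far site, linear in the potential -/
theorem far_pot (h : Cx J₀ N₀ l r V b n T₀ run₀ P T run Q v T' rk J mm MM hK)
    {c₀ lam icR lR yR : ℝ}
    (hN : KN1 k₀ c₀ lam icR lR yR (b.tau n) Cg J₁ m₁ E₁ c η (V.Γ.ρ n)) {x q : Tor d (2 ^ μ)}
    (hq : q ∈ Q) (hD : V.Γ.ρ n < V.Γ.D x q) :
    ∃ ω : ℝ, 0 < ω ∧ ω ≤ 1 ∧ ω ≤ η ∧ ω ≤ η * pot V b n Q x ∧
      E₁ * Real.exp (-(c * V.Γ.D x q)) ≤ ω ^ 4 := by
  obtain ⟨h1, h2, -⟩ := hN.heta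
  obtain ⟨h3, h4⟩ := hN.htau
  have h5 := Real.exp_pos (-((V.Γ.D x q : ℝ) / V.Γ.ρ n))
  have h6 : Real.exp (-((V.Γ.D x q : ℝ) / V.Γ.ρ n)) ≤ 1 := by
    rw [Real.exp_le_one_iff]
    have : 0 ≤ (V.Γ.D x q : ℝ) / V.Γ.ρ n := by positivity
    linarith
  have h7 : b.tau n * Real.exp (-((V.Γ.D x q : ℝ) / V.Γ.ρ n)) ≤ 1 := by nlinarith
  refine ⟨η * (b.tau n * Real.exp (-((V.Γ.D x q : ℝ) / V.Γ.ρ n))), by positivity, ?_, ?_, ?_,
    far_le hN hD⟩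
  · nlinarith [mul_pos h3 h5]
  · nlinarith [mul_pos h3 h5]
  · exact mul_le_mul_of_nonneg_left (h.pot_far h3.le hq x) h1.le

/-- field `ent` of `Rl` -/
theorem ent' (h : Cx J₀ N₀ l r V b n T₀ run₀ P T run Q v T' rk J mm MM hK)
    (hP : Pk V n T T' Q J₁ m₁ E₁ c) {c₀ lam lR yR : ℝ}
    (hN : KN1 k₀ c₀ lam (b.icR n) lR yR (b.tau n) Cg J₁ m₁ E₁ c η (V.Γ.ρ n)) :
    ∀ x ∈ Al T', ∀ y ∈ Al T', ‖net V.E V.e₀ T' x y - net V.E V.e₀ T₀ x y‖ ≤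
      b.icR n * Phi V.Γ (b.tau n) n (P ∪ V.Γ.nbh Q (V.Γ.ρ n)) x := by
  intro x hx y hy
  have h1 := h.rl.ent x (h.al_sub hx) y (h.al_sub hy)
  rw [h.phi_eq, mul_add]
  have h2 : ‖net V.E V.e₀ T' x y - net V.E V.e₀ T₀ x y‖ ≤
      ‖net V.E V.e₀ T' x y - net V.E V.e₀ T x y‖ +
      ‖net V.E V.e₀ T x y - net V.E V.e₀ T₀ x y‖ := by
    have := norm_add_le (net V.E V.e₀ T' x y - net V.E V.e₀ T x y)
      (net V.E V.e₀ T x y - net V.E V.e₀ T₀ x y)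
    rwa [sub_add_sub_cancel] at this
  have h3 : ‖net V.E V.e₀ T' x y - net V.E V.e₀ T x y‖ ≤ b.icR n * pot V b n Q x := by
    obtain ⟨e1, e2, e3, -⟩ := hN.heta
    by_cases hn : x ∈ V.Γ.nbh Q (V.Γ.ρ n)
    · have h4 := (hP.near x hx hn).1 y hy
      have h5 := h.pot_near hN.htau.1.le hn
      have h6 := hN.e
      have h7 : 0 ≤ b.icR n := by linarith
      nlinarith
    · obtain ⟨q, hq, hD, h4, -⟩ := hP.far x hx hn
      obtain ⟨ω, w1, w2, w3, w4, w5⟩ := h.far_pot hN hq hD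
      have h5 := (h4 y hy).trans w5
      have h6 : ω ^ 4 ≤ ω := by
        have := pow_le_pow_of_le_one w1.le w2 (show 1 ≤ 4 by norm_num)
        simpa using this
      have h7 : 0 ≤ pot V b n Q x := by nlinarith
      have h8 : η * pot V b n Q x ≤ b.icR n * pot V b n Q x := mul_le_mul_of_nonneg_right e3 h7
      linarith
  linarith

/-- the fourth powers of the change -/
theorem four (h : Cx J₀ N₀ l r V b n T₀ run₀ P T run Q v T' rk J mm MM hK)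
    (hk : 0 < k₀) (hk₀ : k₀ ≤ (V.cl (V.kk (n + 1)) : ℝ) * V.c₀) {x : Tor d (2 ^ μ)} {J' m' : ℝ}
    (hJ' : 0 ≤ J')
    (h1 : ∀ y ∈ Al T', ‖net V.E V.e₀ T' x y - net V.E V.e₀ T x y‖ ≤ J')
    (h2 : ∑ y ∈ Al T', kap V.e₀ T y * ‖net V.E V.e₀ T' x y - net V.E V.e₀ T x y‖ ^ 2 ≤ m') :
    ∑ y ∈ run.filter (fun x => T'.s x ≠ 0),
      ‖net V.E V.e₀ T' x y - net V.E V.e₀ T x y‖ ^ 4 ≤ J' ^ 2 * (m' / k₀) := by
  have h3 : ∑ y ∈ run.filter (fun x => T'.s x ≠ 0),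
      ‖net V.E V.e₀ T' x y - net V.E V.e₀ T x y‖ ^ 4 ≤
      ∑ y ∈ Al T', J' ^ 2 / k₀ * (kap V.e₀ T y *
        ‖net V.E V.e₀ T' x y - net V.E V.e₀ T x y‖ ^ 2) := by
    refine le_trans (Finset.sum_le_sum fun y hy => ?_)
      (Finset.sum_le_sum_of_subset_of_nonneg (s := run.filter (fun x => T'.s x ≠ 0))
        (fun y hy => run'_al hy) fun y _ _ => ?_)
    · have hyA := run'_al hy
      have e1 := pow_le_pow_left₀ (norm_nonneg _) (h1 y hyA) 2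
      have e2 : k₀ ≤ kap V.e₀ T y := hk₀.trans (h.kap_ge (h.al_sub hyA))
      have e3 : ‖net V.E V.e₀ T' x y - net V.E V.e₀ T x y‖ ^ 4 =
          ‖net V.E V.e₀ T' x y - net V.E V.e₀ T x y‖ ^ 2 *
          ‖net V.E V.e₀ T' x y - net V.E V.e₀ T x y‖ ^ 2 := by ring
      rw [e3]
      refine (mul_le_mul_of_nonneg_right e1 (sq_nonneg _)).trans ?_
      have e4 : J' ^ 2 * ‖net V.E V.e₀ T' x y - net V.E V.e₀ T x y‖ ^ 2 =
          J' ^ 2 / k₀ * (k₀ * ‖net V.E V.e₀ T' x y - net V.E V.e₀ T x y‖ ^ 2) := by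
        field_simp
      rw [e4]
      exact mul_le_mul_of_nonneg_left (mul_le_mul_of_nonneg_right e2 (sq_nonneg _))
        (by positivity)
    · have := h.kap_pos y
      positivity
  refine h3.trans ?_
  rw [← Finset.mul_sum]
  refine (mul_le_mul_of_nonneg_left h2 (by positivity)).trans (le_of_eq ?_)
  ring

/-- field `lar` of `Rl` -/
theorem lar' (h : Cx J₀ N₀ l r V b n T₀ run₀ P T run Q v T' rk J mm MM hK)
    (hk₀ : k₀ ≤ (V.cl (V.kk (n + 1)) : ℝ) * V.c₀)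
    (hP : Pk V n T T' Q J₁ m₁ E₁ c) {c₀ icR yR : ℝ}
    (hN : KN1 k₀ c₀ (b.q n (V.kk (n + 1))).lam icR (b.lR n) yR (b.tau n) Cg J₁ m₁ E₁ c η
      (V.Γ.ρ n))
    (hΦ : ∀ x, b.lR n * Phi V.Γ (b.tau n) n P x ≤ 1) :
    ∀ x ∈ Al T', LaR (net V.E V.e₀ T') (run.filter fun x => T'.s x ≠ 0) x ≤
      (b.q n (V.kk (n + 1))).lam *
        (1 + b.lR n * Phi V.Γ (b.tau n) n (P ∪ V.Γ.nbh Q (V.Γ.ρ n)) x) := by
  intro x hx
  set lam := (b.q n (V.kk (n + 1))).lam with hlam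
  have hl0 : 0 ≤ lam := hN.hlam
  have h1 := h.rl.lar x (h.al_sub hx)
  have h2 : LaR (net V.E V.e₀ T) run x ≤ 2 * lam := by
    refine h1.trans ?_
    have := hΦ x
    nlinarith
  obtain ⟨e1, e2, e3, e4, e5, e6⟩ := hN.heta
  have key : ∃ ζ : ℝ, 22 * ζ * lam ≤ lam * (b.lR n * pot V b n Q x) ∧
      LaR (net V.E V.e₀ T') (run.filter fun x => T'.s x ≠ 0) x ≤
        LaR (net V.E V.e₀ T) run x + 22 * ζ * lam := by
    by_cases hn : x ∈ V.Γ.nbh Q (V.Γ.ρ n)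
    · obtain ⟨ζ, z1, z2, z3, z4⟩ := hN.l
      obtain ⟨p1, p2⟩ := hP.near x hx hn
      refine ⟨ζ, ?_, ?_⟩
      · have h5 := h.pot_near hN.htau.1.le hn
        have h6 : 22 * ζ ≤ b.lR n * pot V b n Q x := by nlinarith
        nlinarith
      · exact lar_new (Finset.filter_subset _ _) z1 z2 h2 (h.four hN.hk hk₀ hN.hJ1 p1 p2) z4
    · obtain ⟨q, hq, hD, p1, p2⟩ := hP.far x hx hn
      obtain ⟨ω, w1, w2, w3, w4, w5⟩ := h.far_pot hN hq hD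
      refine ⟨ω, ?_, ?_⟩
      · have h7 : 0 ≤ pot V b n Q x := by nlinarith
        have h6 : 22 * ω ≤ b.lR n * pot V b n Q x := by nlinarith
        nlinarith
      · refine lar_new (Finset.filter_subset _ _) w1 w2 h2
          (h.four hN.hk hk₀ (by positivity : 0 ≤ ω ^ 4) (fun y hy => (p1 y hy).trans w5)
            (p2.trans w5)) ?_
        have hk := hN.hk
        have h8 : (ω ^ 4) ^ 2 * (ω ^ 4 / k₀) = ω ^ 4 * (ω ^ 8 / k₀) := by ring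
        rw [h8]
        refine mul_le_mul_of_nonneg_left ?_ (by positivity)
        rw [div_le_iff₀ hk, mul_comm lam]
        exact (pow_le_pow_left₀ w1.le w3 8).trans e6
  obtain ⟨ζ, k1, k2⟩ := key
  rw [h.phi_eq]
  have h9 : lam * (1 + b.lR n * (Phi V.Γ (b.tau n) n P x + pot V b n Q x)) =
      lam * (1 + b.lR n * Phi V.Γ (b.tau n) n P x) + lam * (b.lR n * pot V b n Q x) := by ring
  rw [h9]
  linarith

/-- field `yin` of `Rl` -/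
theorem yin' (hC : CmpStmt) (hX : VexStmt) (hVF : VfrStmt)
    (h : Cx J₀ N₀ l r V b n T₀ run₀ P T run Q v T' rk J mm MM hK)
    (hP : Pk V n T T' Q J₁ m₁ E₁ c) {lam icR lR : ℝ}
    (hN : KN1 k₀ V.c₀ lam icR lR (b.yR n) (b.tau n) Cg J₁ m₁ E₁ c η (V.Γ.ρ n))
    (hyR : 0 ≤ b.yR n)
    (hCg : ∀ a ∈ run, (net V.E V.e₀ T a a).im ≤ Cg) :
    ∀ a ∈ run.filter (fun x => T'.s x ≠ 0),
      yy V.E V.e₀ T' (run.filter fun x => T'.s x ≠ 0) (V.cl (V.kk (n + 1))) a ≤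
      (1 + (b.q n (V.kk (n + 1))).tht +
        b.yR n * Phi V.Γ (b.tau n) n (P ∪ V.Γ.nbh Q (V.Γ.ρ n)) a) * gg T' a := by
  intro a ha
  set R' := run.filter fun x => T'.s x ≠ 0 with hR'
  set s : ℝ := (V.cl (V.kk (n + 1)) : ℝ) with hs
  have hs0 : 0 ≤ s := NNReal.coe_nonneg _
  have haA := run'_al ha
  have har : a ∈ run := (Finset.mem_filter.1 ha).1
  have hR : R' ⊆ run := Finset.filter_subset _ _
  have hrs : ∀ x ∈ run, (T.s x : ℝ) = s := fun x hx => by rw [h.run_clk hx]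
  have hrs' : ∀ x ∈ R', (T'.s x : ℝ) = s := fun x hx => by
    rw [(h.same (h.alive_not (run'_al hx))).2.1]
    exact hrs x (hR hx)
  have hgr : ∀ a ∈ run, 0 < gg T a := fun a ha => h.gpos a (h.rl.sub.2 ha)
  have h1 := h.rl.yin a har
  -- freezing
  have h2 : yy V.E V.e₀ T R' s a ≤ yy V.E V.e₀ T run s a := by
    refine H16.yy_mono hC hX hVF (ρ := 0) hR hs0 hgr (fun x hx => (hrs x hx).ge)
      ⟨le_rfl, one_pos⟩ (fun a _ => ?_) a har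
    rw [H16.pv_zero hrs]
    simp
  -- the new matrix
  have hw : pw T' R' s = pw T R' s := by
    funext x
    unfold pw
    rw [h.gg_eq]
  have hw0 : ∀ x, 0 ≤ pw T R' s x := by
    intro x
    unfold pw ind
    by_cases hx : x ∈ R'
    · rw [if_pos hx, one_mul]
      exact mul_nonneg hs0 (hgr x (hR hx)).le
    · rw [if_neg hx, zero_mul]
  have hwk : ∀ x, pw T R' s x ≤ kap V.e₀ T x := by
    intro x
    unfold pw ind
    by_cases hx : x ∈ R'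
    · rw [if_pos hx, one_mul]
      unfold kap
      rw [hrs x (hR hx)]
      have : (T.mb x).im = gg T x := rfl
      rw [this]
      linarith [h.e0]
    · rw [if_neg hx, zero_mul]
      exact (h.kap_pos x).le
  have hward : ∑ x, pw T R' s x * ‖net V.E V.e₀ T a x‖ ^ 2 ≤ Cg := by
    refine le_trans (le_of_eq ?_) ((H16.flux_le V.E h.e0 h.gpos a (pw T R' s) hwk).trans
      (hCg a har))
    refine Finset.sum_congr rfl fun x _ => ?_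
    unfold KK
    ring
  have hmass : ∀ m', ∑ y ∈ Al T', kap V.e₀ T y *
      ‖net V.E V.e₀ T' a y - net V.E V.e₀ T a y‖ ^ 2 ≤ m' →
      ∑ x, pw T R' s x * ‖net V.E V.e₀ T' a x - net V.E V.e₀ T a x‖ ^ 2 ≤ m' := by
    intro m' hm
    refine le_trans ?_ hm
    rw [← Finset.sum_subset (Finset.subset_univ (Al T')) fun x _ hx => ?_]
    · exact Finset.sum_le_sum fun x _ => mul_le_mul_of_nonneg_right (hwk x) (sq_nonneg _)
    · have : x ∉ R' := fun hxR => hx (run'_al hxR)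
      unfold pw ind
      rw [if_neg this, zero_mul, zero_mul]
  have h3 : yy V.E V.e₀ T' R' s a = ‖vir (BB (net V.E V.e₀ T')) 0 (pw T R' s) a‖ +
      vir (KK (net V.E V.e₀ T')) 0 (pw T R' s) a := by
    unfold yy
    rw [H16.pv_zero hrs', hw]
  have h4 : yy V.E V.e₀ T R' s a = ‖vir (BB (net V.E V.e₀ T)) 0 (pw T R' s) a‖ +
      vir (KK (net V.E V.e₀ T)) 0 (pw T R' s) a := by
    unfold yy
    rw [H16.pv_zero fun x hx => hrs x (hR hx)]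
  obtain ⟨e1, e2, e3, e4, e5, e6⟩ := hN.heta
  have hg : V.c₀ ≤ gg T a := (h.gau a (h.rl.sub.2 har)).1
  have key : yy V.E V.e₀ T' R' s a ≤ yy V.E V.e₀ T R' s a +
      b.yR n * pot V b n Q a * gg T a := by
    rw [h3, h4]
    by_cases hn : a ∈ V.Γ.nbh Q (V.Γ.ρ n)
    · obtain ⟨ζ, z1, z2, z3, z4⟩ := hN.y
      obtain ⟨p1, p2⟩ := hP.near a haA hn
      refine (yin_new hw0 z1 z2 hward (hmass m₁ p2) z4).trans (add_le_add le_rfl ?_)
      have h5 := h.pot_near hN.htau.1.le hn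
      have h6 : b.yR n * V.c₀ ≤ b.yR n * gg T a := mul_le_mul_of_nonneg_left hg hyR
      have h7 : 0 ≤ b.yR n * gg T a := mul_nonneg hyR (hgr a har).le
      nlinarith
    · obtain ⟨q, hq, hD, p1, p2⟩ := hP.far a haA hn
      obtain ⟨ω, w1, w2, w3, w4, w5⟩ := h.far_pot hN hq hD
      refine (yin_new hw0 w1 w2 hward (hmass _ (p2.trans w5)) ?_).trans
        (add_le_add le_rfl ?_)
      · exact pow_le_pow_of_le_one w1.le w2 (by norm_num)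
      · have h7 : 0 ≤ pot V b n Q a := by nlinarith
        have h8 : 2 * ω * (Cg + 2) ≤ 2 * (η * pot V b n Q a) * (Cg + 2) := by
          have := hN.hCg
          have : 0 ≤ Cg + 2 := by linarith
          nlinarith
        have h9 : 2 * (η * pot V b n Q a) * (Cg + 2) =
            pot V b n Q a * (2 * η * (Cg + 2)) := by ring
        have h10 := mul_le_mul_of_nonneg_left e5 h7
        have h11 : pot V b n Q a * (b.yR n * V.c₀) ≤ b.yR n * pot V b n Q a * gg T a := by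
          have : b.yR n * pot V b n Q a * V.c₀ ≤ b.yR n * pot V b n Q a * gg T a :=
            mul_le_mul_of_nonneg_left hg (mul_nonneg hyR h7)
          linarith
        linarith
  rw [h.phi_eq, h.gg_eq]
  have h12 : (1 + (b.q n (V.kk (n + 1))).tht +
      b.yR n * (Phi V.Γ (b.tau n) n P a + pot V b n Q a)) * gg T a =
      (1 + (b.q n (V.kk (n + 1))).tht + b.yR n * Phi V.Γ (b.tau n) n P a) * gg T a +
      b.yR n * pot V b n Q a * gg T a := by ring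
  rw [h12]
  linarith

end Cx

end Pool.Agent.KL2
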