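import Pool.Agent.Helper16_AHH.Fld
import Pool.Agent.Helper89_FAR.Geo

/-!
# The end of a successful attempt (kill and release of a cluster)

`Fin1`: what the attempt guarantees. `Cx`: the situation of the field `kil`. The aim is
`Cx ⇒ Rl` for `P ∪ nbh Q ρ`, `T'`, `{x ∈ run | T'.s x ≠ 0}`.
-/

set_option autoImplicit false

open scoped BigOperators NNReal Matrix

noncomputable section

namespace Pool.Agent.KL2

open Pool.Agent.BED (Tor)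
open Pool.Agent.AND2B (net kap Gt)
open Pool.Agent.ANP (Cfg Geo Fc)
open Pool.Agent.AHH

section defs

variable {d M : ℕ} [NeZero M]

/-- the running sites near `Q` -/
def Rn (V : Env d M) (n : ℕ) (run Q : Finset (Tor d M)) : Finset (Tor d M) :=
  run ∩ V.Γ.nbh Q (V.Γ.ρ n)

/-- those which survive -/
def Rs (V : Env d M) (n : ℕ) (run Q : Finset (Tor d M)) (T' : Cfg (Tor d M)) :
    Finset (Tor d M) := (Rn V n run Q).filter fun x => T'.s x ≠ 0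

/-- the killed sites -/
def Ks (run : Finset (Tor d M)) (T' : Cfg (Tor d M)) : Finset (Tor d M) :=
  run.filter fun x => T'.s x = 0

/-- THE END OF A SUCCESSFUL ATTEMPT: `T` its start, `T'` its end, `v` the potential on `Q` -/
structure Fin1 (V : Env d M) (n : ℕ) (T T' : Cfg (Tor d M)) (run Q : Finset (Tor d M))
    (v : Tor d M → ℝ) (rk N : ℕ) (J mm MM hK : ℝ) : Prop where
  mb : T'.mb = T.mb
  off : ∀ x, x ∉ Rn V n run Q → x ∉ Q → T'.V x = T.V x ∧ T'.s x = T.s x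
  rn : ∀ x ∈ Rn V n run Q, T'.s x = 0 ∨ T'.V x = T.V x ∧ T'.s x = T.s x
  app : ∀ b ∈ Q, T'.V b = v b ∧ T'.s b = 0
  num : (Ks run T').card ≤ N
  near : Ks run T' ⊆ V.Γ.nbh Q rk
  /-- the first kills -/
  hK : ∀ x ∈ Rs V n run Q T', ∀ b ∈ Q, kap V.e₀ T b * ‖net V.E V.e₀ T b x‖ ^ 2 ≤ hK
  ent : ∀ x ∈ Rs V n run Q T', ∀ y ∈ Rs V n run Q T',
    ‖net V.E V.e₀ T' x y - net V.E V.e₀ T x y‖ ≤ J
  mx : ∀ x ∈ Rs V n run Q T', ∑ y ∈ Rs V n run Q T',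
    kap V.e₀ T y * ‖net V.E V.e₀ T' x y - net V.E V.e₀ T x y‖ ^ 2 ≤ mm
  MM : ∑ x ∈ Rs V n run Q T', kap V.e₀ T x * ∑ y ∈ Rs V n run Q T',
    kap V.e₀ T y * ‖net V.E V.e₀ T' x y - net V.E V.e₀ T x y‖ ^ 2 ≤ MM

end defs

variable {d μ : ℕ}

/-- the situation of the field `kil` at the end of a successful attempt -/
structure Cx (J₀ N₀ : ℕ) (l r : ℕ → ℕ) (V : Env d (2 ^ μ)) (b : Bud) (n : ℕ)
    (T₀ : Cfg (Tor d (2 ^ μ))) (run₀ P : Finset (Tor d (2 ^ μ))) (T : Cfg (Tor d (2 ^ μ)))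
    (run Q : Finset (Tor d (2 ^ μ))) (v : Tor d (2 ^ μ) → ℝ) (T' : Cfg (Tor d (2 ^ μ)))
    (rk : ℕ) (J mm MM hK : ℝ) : Prop where
  hΓ : V.Γ = Gt d μ J₀ N₀ l r
  hl : Monotone l
  c0 : 0 < V.c₀
  e0 : 0 < V.e₀
  clp : 0 < V.cl (V.kk (n + 1))
  fc : Fc V.Γ V.kk V.cl V.Dn n (V.kk (n + 1)) ∅ T run
  rl : Rl V b n T₀ run₀ P T run
  ne : Q.Nonempty
  fro : ∀ x ∈ Q, x ∉ run ∧ 0 < T.s x
  iso : ∀ x ∈ Q, ∀ y, V.Γ.D x y ≤ V.Γ.ρ n → y ∈ Q ∨ y ∈ run ∨ T.s y = 0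
  far : ∀ x ∈ Q, ∀ y ∈ P, 3 * V.Γ.ρ n < V.Γ.D x y
  f1 : Fin1 V n T T' run Q v rk (V.Kn n) J mm MM hK

namespace Cx

variable {J₀ N₀ : ℕ} {l r : ℕ → ℕ} {V : Env d (2 ^ μ)} {b : Bud} {n : ℕ}
  {T₀ : Cfg (Tor d (2 ^ μ))} {run₀ P : Finset (Tor d (2 ^ μ))} {T : Cfg (Tor d (2 ^ μ))}
  {run Q : Finset (Tor d (2 ^ μ))} {v : Tor d (2 ^ μ) → ℝ} {T' : Cfg (Tor d (2 ^ μ))}
  {rk : ℕ} {J mm MM hK : ℝ}

/-- the sites which die -/
def S (run Q : Finset (Tor d (2 ^ μ))) (T' : Cfg (Tor d (2 ^ μ))) : Finset (Tor d (2 ^ μ)) :=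
  Q ∪ Ks run T'

theorem geo (h : Cx J₀ N₀ l r V b n T₀ run₀ P T run Q v T' rk J mm MM hK) :
    ANP.GeoOk V.Γ d := by
  rw [h.hΓ]
  exact ANP.H61.trg d μ l _ h.hl J₀ N₀

theorem D_eq (h : Cx J₀ N₀ l r V b n T₀ run₀ P T run Q v T' rk J mm MM hK)
    (x y : Tor d (2 ^ μ)) : V.Γ.D x y = ANP.H61.sd x y := by
  rw [h.hΓ]
  rfl

theorem rho_eq (h : Cx J₀ N₀ l r V b n T₀ run₀ P T run Q v T' rk J mm MM hK) :
    V.Γ.ρ n = 2 ^ r n := by
  rw [h.hΓ]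
  rfl

theorem mem_nbh {Γ : Geo (Tor d (2 ^ μ))} {S : Finset (Tor d (2 ^ μ))} {t : ℕ}
    {x : Tor d (2 ^ μ)} : x ∈ Γ.nbh S t ↔ ∃ y ∈ S, Γ.D x y ≤ t := by
  unfold Geo.nbh
  rw [Finset.mem_filter]
  exact ⟨fun h => h.2, fun h => ⟨Finset.mem_univ _, h⟩⟩

/-- outside of `S` nothing changes -/
theorem same (h : Cx J₀ N₀ l r V b n T₀ run₀ P T run Q v T' rk J mm MM hK)
    {x : Tor d (2 ^ μ)} (hx : x ∉ S run Q T') :
    T'.V x = T.V x ∧ T'.s x = T.s x ∧ T'.mb x = T.mb x := by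
  have hQ : x ∉ Q := fun hq => hx (Finset.mem_union_left _ hq)
  have hK' : x ∉ Ks run T' := fun hq => hx (Finset.mem_union_right _ hq)
  have hmb : T'.mb x = T.mb x := by rw [h.f1.mb]
  by_cases hR : x ∈ Rn V n run Q
  · rcases h.f1.rn x hR with h1 | ⟨h1, h2⟩
    · exact absurd (Finset.mem_filter.2 ⟨(Finset.mem_inter.1 hR).1, h1⟩) hK'
    · exact ⟨h1, h2, hmb⟩
  · exact ⟨(h.f1.off x hR hQ).1, (h.f1.off x hR hQ).2, hmb⟩

/-- the sites of `S` are dead -/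
theorem dead (h : Cx J₀ N₀ l r V b n T₀ run₀ P T run Q v T' rk J mm MM hK)
    {x : Tor d (2 ^ μ)} (hx : x ∈ S run Q T') : T'.s x = 0 := by
  rcases Finset.mem_union.1 hx with h1 | h1
  · exact (h.f1.app x h1).2
  · exact (Finset.mem_filter.1 h1).2

theorem alive_not (h : Cx J₀ N₀ l r V b n T₀ run₀ P T run Q v T' rk J mm MM hK)
    {x : Tor d (2 ^ μ)} (hx : x ∈ Al T') : x ∉ S run Q T' := fun hS => by
  have h1 := H16.mem_al.1 hx
  rw [h.dead hS] at h1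
  exact lt_irrefl _ h1

/-- the sites of `S` are alive before -/
theorem S_al (h : Cx J₀ N₀ l r V b n T₀ run₀ P T run Q v T' rk J mm MM hK) :
    S run Q T' ⊆ Al T := by
  intro x hx
  rcases Finset.mem_union.1 hx with h1 | h1
  · exact H16.mem_al.2 (h.fro x h1).2
  · exact h.rl.sub.2 (Finset.mem_filter.1 h1).1

/-- the nodes afterwards -/
theorem al_eq (h : Cx J₀ N₀ l r V b n T₀ run₀ P T run Q v T' rk J mm MM hK) :
    Al T' = Al T \ S run Q T' := by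
  ext x
  rw [Finset.mem_sdiff]
  constructor
  · intro hx
    have hS := h.alive_not hx
    refine ⟨?_, hS⟩
    rw [H16.mem_al] at hx ⊢
    rwa [(h.same hS).2.1] at hx
  · rintro ⟨hx, hS⟩
    rw [H16.mem_al] at hx ⊢
    rwa [(h.same hS).2.1]

theorem al_sub (h : Cx J₀ N₀ l r V b n T₀ run₀ P T run Q v T' rk J mm MM hK) :
    Al T' ⊆ Al T := by
  rw [h.al_eq]
  exact Finset.sdiff_subset

theorem kap_eq (h : Cx J₀ N₀ l r V b n T₀ run₀ P T run Q v T' rk J mm MM hK)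
    {x : Tor d (2 ^ μ)} (hx : x ∉ S run Q T') : kap V.e₀ T' x = kap V.e₀ T x := by
  unfold kap
  rw [(h.same hx).2.1, (h.same hx).2.2]

theorem gg_eq (h : Cx J₀ N₀ l r V b n T₀ run₀ P T run Q v T' rk J mm MM hK)
    (x : Tor d (2 ^ μ)) : gg T' x = gg T x := by
  unfold gg
  rw [h.f1.mb]

/-- the gauge -/
theorem gau (h : Cx J₀ N₀ l r V b n T₀ run₀ P T run Q v T' rk J mm MM hK) :
    Gb V T (b.q n (V.kk (n + 1))).del := by
  intro x hx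
  have h1 : x ∈ Al T₀ := by
    rw [H16.mem_al] at hx ⊢
    rcases h.rl.chg x with h1 | h1
    · rwa [h1.2] at hx
    · exact h1.2.1
  have h2 := h.rl.st0.gau x h1
  unfold gg at h2 ⊢
  rw [h.rl.mb]
  exact h2

theorem gpos (h : Cx J₀ N₀ l r V b n T₀ run₀ P T run Q v T' rk J mm MM hK) :
    ∀ x ∈ Al T, 0 < gg T x := fun x hx => lt_of_lt_of_le h.c0 (h.gau x hx).1

theorem gpos' (h : Cx J₀ N₀ l r V b n T₀ run₀ P T run Q v T' rk J mm MM hK) :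
    ∀ x ∈ Al T', 0 < gg T' x := fun x hx => by
  rw [h.gg_eq]
  exact h.gpos x (h.al_sub hx)

/-- the clock of an alive site is at least `s` -/
theorem clk (h : Cx J₀ N₀ l r V b n T₀ run₀ P T run Q v T' rk J mm MM hK)
    {x : Tor d (2 ^ μ)} (hx : x ∈ Al T) : V.cl (V.kk (n + 1)) ≤ T.s x := by
  by_cases hr : x ∈ run
  · have h1 := h.fc.runs x hr
    rw [if_neg (Finset.notMem_empty x)] at h1
    rw [h1]
  · rcases h.fc.rest x hr with h1 | h1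
    · rw [H16.mem_al, h1] at hx
      exact absurd hx (lt_irrefl _)
    · rw [if_neg (Finset.notMem_empty x)] at h1
      exact h1.1

/-- the absorption of an alive site -/
theorem kap_ge (h : Cx J₀ N₀ l r V b n T₀ run₀ P T run Q v T' rk J mm MM hK)
    {x : Tor d (2 ^ μ)} (hx : x ∈ Al T) : (V.cl (V.kk (n + 1)) : ℝ) * V.c₀ ≤ kap V.e₀ T x := by
  unfold kap
  have h1 : (V.cl (V.kk (n + 1)) : ℝ) ≤ T.s x := by exact_mod_cast h.clk hx
  have h2 : V.c₀ ≤ (T.mb x).im := (h.gau x hx).1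
  have h3 := mul_le_mul h1 h2 h.c0.le (NNReal.coe_nonneg _)
  linarith [h.e0]

theorem kap_pos (h : Cx J₀ N₀ l r V b n T₀ run₀ P T run Q v T' rk J mm MM hK)
    (x : Tor d (2 ^ μ)) : 0 < kap V.e₀ T x := H16.kap_pos h.e0 h.gpos x

theorem kap_pos' (h : Cx J₀ N₀ l r V b n T₀ run₀ P T run Q v T' rk J mm MM hK)
    (x : Tor d (2 ^ μ)) : 0 < kap V.e₀ T' x := H16.kap_pos h.e0 h.gpos' x

/-- the alive sites near `Q` are running -/
theorem near_run (h : Cx J₀ N₀ l r V b n T₀ run₀ P T run Q v T' rk J mm MM hK)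
    {x : Tor d (2 ^ μ)} (hx : x ∈ Al T') (hn : x ∈ V.Γ.nbh Q (V.Γ.ρ n)) :
    x ∈ Rs V n run Q T' := by
  obtain ⟨y, hy, hxy⟩ := mem_nbh.1 hn
  have hS := h.alive_not hx
  have hA := H16.mem_al.1 (h.al_sub hx)
  rw [h.geo.comm] at hxy
  rcases h.iso y hy x hxy with h1 | h1 | h1
  · exact absurd (Finset.mem_union_left _ h1) hS
  · exact Finset.mem_filter.2 ⟨Finset.mem_inter.2 ⟨h1, hn⟩, (H16.mem_al.1 hx).ne'⟩
  · rw [h1] at hA
    exact absurd hA (lt_irrefl _)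

theorem Rs_al (h : Cx J₀ N₀ l r V b n T₀ run₀ P T run Q v T' rk J mm MM hK) :
    Rs V n run Q T' ⊆ Al T' := fun _ hx =>
  H16.mem_al.2 (pos_iff_ne_zero.2 (Finset.mem_filter.1 hx).2)

theorem Rs_run (_h : Cx J₀ N₀ l r V b n T₀ run₀ P T run Q v T' rk J mm MM hK) :
    Rs V n run Q T' ⊆ run := fun _ hx =>
  (Finset.mem_inter.1 (Finset.mem_filter.1 hx).1).1

/-- `nbh Q ρ` is disjoint from `P` -/
theorem disj (h : Cx J₀ N₀ l r V b n T₀ run₀ P T run Q v T' rk J mm MM hK) :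
    Disjoint P (V.Γ.nbh Q (V.Γ.ρ n)) := by
  rw [Finset.disjoint_left]
  intro x hx hn
  obtain ⟨y, hy, hxy⟩ := mem_nbh.1 hn
  have h1 := h.far y hy x hx
  rw [h.geo.comm] at h1
  omega

end Cx

end Pool.Agent.KL2
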