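import Pool.Agent.Helper34_CTC.Seq

/-!
# Cubes around a center
-/

set_option autoImplicit false

open scoped BigOperators
open Finset

namespace Pool.Agent.KL2

open Pool.Agent.LTG Pool.Agent.ANP.H61

variable {d M : ℕ} [NeZero M]

/-- the corner of the cube with the center `j` and the side `2 K` -/
def cor (K : ℕ) (j : Tor d M) : Tor d M := fun i => j i - (K : ZMod M)

theorem off_near {K r : ℕ} (hK : 2 * K ≤ M) (hr : r < K) {j x : Tor d M} {i : Fin d}
    (h : cd (x i) (j i) ≤ r) : K ≤ off (cor K j) x i + r ∧ off (cor K j) x i ≤ K + r := by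
  obtain ⟨z, hz, hz2⟩ := exists_int (x i) (j i)
  have h1 : z.natAbs ≤ r := hz2 ▸ h
  have h2 : off (cor K j) x i = (z + K).toNat := by
    unfold off cor
    have e : x i - (j i - (K : ZMod M)) = (((z + K).toNat : ℕ) : ZMod M) := by
      have e2 : (((z + K).toNat : ℕ) : ZMod M) = (((z + K).toNat : ℤ) : ZMod M) := by push_cast; rfl
      rw [e2, Int.toNat_of_nonneg (by omega)]
      push_cast
      rw [← hz]
      ring
    rw [e, ZMod.val_natCast, Nat.mod_eq_of_lt (by omega)]
  rw [h2]
  omega

theorem off_far {K : ℕ} (hK : 2 * K ≤ M) {j x : Tor d M} {i : Fin d}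
    (h : off (cor K j) x i < 2 * K) : cd (x i) (j i) ≤ K := by
  have e : x i - j i = ((((off (cor K j) x i : ℕ) : ℤ) - K : ℤ) : ZMod M) := by
    unfold off cor
    push_cast
    rw [ZMod.natCast_val, ZMod.cast_id]
    ring
  have h1 := cd_le (x i) (j i) _ e
  omega

/-- the cube is contained in a ball -/
theorem box_sd {K : ℕ} (hK : 2 * K ≤ M) {j x : Tor d M} (h : Box (cor K j) (2 * K) x) :
    sd x j ≤ K := by
  rw [sd_le]
  exact fun i => off_far hK (h i)

/-- sites off the cube are far from the center -/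
theorem nbox_sd {K : ℕ} (hK : 2 * K ≤ M) {j x : Tor d M} (h : ¬ Box (cor K j) (2 * K) x) :
    K ≤ sd x j := by
  unfold Box at h
  push Not at h
  obtain ⟨i, hi⟩ := h
  by_contra hc
  push Not at hc
  have h1 := le_sd x j i
  have h2 := off_near hK (show cd (x i) (j i) < K by omega) (le_refl _) (j := j) (x := x) (i := i)
  omega

/-- a small ball is in the core of the cube -/
theorem core_sd {K R r : ℕ} (hK : 2 * K ≤ M) (hr : r + R < K) {j x : Tor d M} (h : sd x j ≤ r) :
    Core (cor K j) (2 * K) R x := by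
  intro i
  have h1 := off_near hK (show r < K by omega) ((le_sd x j i).trans h) (j := j) (x := x) (i := i)
  omega

end Pool.Agent.KL2
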