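import Pool.Agent.Helper34_KL2.Defs

/-!
# Decay, and the change of the resolvent at all nodes
-/

set_option autoImplicit false

open scoped BigOperators NNReal Matrix

noncomputable section

namespace Pool.Agent.KL2

open Pool.Agent.BED (Tor)
open Pool.Agent.AND2B (net kap Gt Hr Vef res)
open Pool.Agent.ANP (Cfg Geo Fc)
open Pool.Agent.ANR (Gr)
open Pool.Agent.ANR.H89 (Upd upd_geo)
open Pool.Agent.AHH

variable {d μ : ℕ}

theorem sd_le_pow (x y : Tor d (2 ^ μ)) : ANP.H61.sd x y ≤ 2 ^ μ := by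
  rw [ANP.H61.sd_le]
  intro i
  have h1 := ANP.H61.cd_le (x i) (y i) (((x i - y i).val : ℕ) : ℤ) (by
    push_cast
    rw [ZMod.natCast_val, ZMod.cast_id])
  have h2 := ZMod.val_lt (x i - y i)
  omega

/-- the constant in the comparison of the alive distance with the distance -/
def Zc (d n : ℕ) (Dn : ℕ → ℕ) : ℝ := 2 + 2 * ∑ i ∈ Finset.range (n + 1), (3 ^ d * Dn i : ℝ)

/-- FAR for two configurations, without the cutoff -/
theorem upd_all {J₀ N₀ : ℕ} {l r : ℕ → ℕ} (hl : Monotone l) {E e₀ k₀ : ℝ}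
    {T T' : Cfg (Tor d (2 ^ μ))} {F : Finset (Tor d (2 ^ μ))} (hFne : F.Nonempty) {n : ℕ}
    {Dn : ℕ → ℕ} (he : 0 < e₀)
    (hm : ∀ x, 0 ≤ (T.s x : ℝ) * (T.mb x).im) (hm' : ∀ x, 0 ≤ (T'.s x : ℝ) * (T'.mb x).im)
    (hoff : ∀ x, x ∉ F → T'.V x = T.V x ∧ T'.s x = T.s x ∧ T'.mb x = T.mb x)
    (dens : ∃ dd : ℕ → Finset (Tor d (2 ^ μ)), (∀ x, T.s x = 0 → ∃ j ≤ n, x ∈ dd j) ∧
      ∀ j B, (dd j ∩ (Gt d μ J₀ N₀ l r).blk j B).card ≤ Dn j)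
    (hsum : ∑ i ∈ Finset.range (n + 1), (3 ^ d * Dn i : ℝ) / 2 ^ l i ≤ 1 / 4)
    (hk : 0 < k₀) (hk1 : k₀ ≤ 1) (hal : ∀ x, T.s x ≠ 0 → k₀ ≤ kap e₀ T x)
    (hal' : ∀ x, T'.s x ≠ 0 → k₀ ≤ kap e₀ T' x) :
    ∃ φ : Tor d (2 ^ μ) → ℝ,
      Upd (Hr (Vef T) E) (Hr (Vef T') E) (kap e₀ T) (kap e₀ T') φ F
        (Finset.univ.filter fun x => T.s x ≠ 0 ∧ T'.s x ≠ 0)
        ((Finset.univ.filter fun x => T.s x ≠ 0) \ F) (2 * d) k₀ (k₀ / (8 * d)) ∧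
      ∀ y, ∃ x ∈ F, 1 / 2 * (ANP.H61.sd x y : ℝ) - Zc d n Dn ≤ φ y := by
  obtain ⟨φ, hU, -, hφ⟩ := upd_geo hl (E := E) hFne he hm hm' hoff dens hsum hk hk1 hal hal' (2 ^ μ)
  refine ⟨φ, hU, fun y => ?_⟩
  obtain ⟨x, hx, h1⟩ := hφ y
  refine ⟨x, hx, le_trans ?_ h1⟩
  have h2 : (Gt d μ J₀ N₀ l r).D x y = ANP.H61.sd x y := rfl
  rw [h2]
  have h3 : ((ANP.H61.sd x y : ℕ) : ℝ) ≤ 2 ^ μ := by exact_mod_cast sd_le_pow x y
  have h4 : (0 : ℝ) ≤ ∑ i ∈ Finset.range (n + 1), (3 ^ d * Dn i : ℝ) :=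
    Finset.sum_nonneg fun _ _ => by positivity
  have h5 : (0 : ℝ) < 2 ^ μ := by positivity
  rw [min_eq_right]
  · unfold Zc
    linarith
  · push_cast
    linarith

/-- (DEC) decay of the resolvent of one configuration -/
theorem dec {J₀ N₀ : ℕ} {l r : ℕ → ℕ} (hl : Monotone l) {E e₀ k₀ : ℝ}
    {T : Cfg (Tor d (2 ^ μ))} {n : ℕ} {Dn : ℕ → ℕ} (he : 0 < e₀)
    (hm : ∀ x, 0 ≤ (T.s x : ℝ) * (T.mb x).im)
    (dens : ∃ dd : ℕ → Finset (Tor d (2 ^ μ)), (∀ x, T.s x = 0 → ∃ j ≤ n, x ∈ dd j) ∧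
      ∀ j B, (dd j ∩ (Gt d μ J₀ N₀ l r).blk j B).card ≤ Dn j)
    (hsum : ∑ i ∈ Finset.range (n + 1), (3 ^ d * Dn i : ℝ) / 2 ^ l i ≤ 1 / 4)
    (hk : 0 < k₀) (hk1 : k₀ ≤ 1) (hal : ∀ x, T.s x ≠ 0 → k₀ ≤ kap e₀ T x) (x y : Tor d (2 ^ μ)) :
    kap e₀ T x * kap e₀ T y * ‖net E e₀ T x y‖ ^ 2 ≤
      2 * Real.exp (2 * (k₀ / (8 * d)) * Zc d n Dn) *
        Real.exp (-(k₀ / (8 * d) * ANP.H61.sd x y)) := by
  obtain ⟨φ, hU, hφ⟩ := upd_all hl (E := E) (F := {x}) (Finset.singleton_nonempty x) he hm hm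
    (fun _ _ => ⟨rfl, rfl, rfl⟩) dens hsum hk hk1 hal hal
  have h1 := hU.cond_all x y
  have h2 : φ x = 0 := hU.hF x (Finset.mem_singleton_self x)
  obtain ⟨x', hx', h3⟩ := hφ y
  rw [Finset.mem_singleton] at hx'
  subst hx'
  have h4 : kap e₀ T x' * kap e₀ T y * ‖net E e₀ T x' y‖ ^ 2 ≤
      2 * Real.exp (-(2 * (k₀ / (8 * d)) * |φ y - φ x'|)) := h1
  refine h4.trans ?_
  rw [h2, sub_zero, mul_assoc (2 : ℝ) (Real.exp _), ← Real.exp_add]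
  refine mul_le_mul_of_nonneg_left (Real.exp_le_exp.2 ?_) (by norm_num)
  have h5 : φ y ≤ |φ y| := le_abs_self _
  have hβ : 0 ≤ k₀ / (8 * d) := hU.hβ
  nlinarith

namespace Cx

variable {J₀ N₀ : ℕ} {l r : ℕ → ℕ} {V : Env d (2 ^ μ)} {b : Bud} {n : ℕ}
  {T₀ : Cfg (Tor d (2 ^ μ))} {run₀ P : Finset (Tor d (2 ^ μ))} {T : Cfg (Tor d (2 ^ μ))}
  {run Q : Finset (Tor d (2 ^ μ))} {v : Tor d (2 ^ μ) → ℝ} {T' : Cfg (Tor d (2 ^ μ))}
  {rk : ℕ} {J mm MM hK : ℝ}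

theorem im_nonneg (h : Cx J₀ N₀ l r V b n T₀ run₀ P T run Q v T' rk J mm MM hK)
    (x : Tor d (2 ^ μ)) : 0 ≤ (T.s x : ℝ) * (T.mb x).im := by
  by_cases hx : x ∈ Al T
  · exact mul_nonneg (NNReal.coe_nonneg _) (h.gpos x hx).le
  · have h2 : T.s x = 0 := by
      by_contra hc
      exact hx (H16.mem_al.2 (pos_iff_ne_zero.2 hc))
    rw [h2]
    simp

theorem im_nonneg' (h : Cx J₀ N₀ l r V b n T₀ run₀ P T run Q v T' rk J mm MM hK)
    (x : Tor d (2 ^ μ)) : 0 ≤ (T'.s x : ℝ) * (T'.mb x).im := by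
  by_cases hx : x ∈ Al T'
  · exact mul_nonneg (NNReal.coe_nonneg _) (h.gpos' x hx).le
  · have h2 : T'.s x = 0 := by
      by_contra hc
      exact hx (H16.mem_al.2 (pos_iff_ne_zero.2 hc))
    rw [h2]
    simp

theorem S_ne (h : Cx J₀ N₀ l r V b n T₀ run₀ P T run Q v T' rk J mm MM hK) :
    (S run Q T').Nonempty := by
  obtain ⟨x, hx⟩ := h.ne
  exact ⟨x, Finset.mem_union_left _ hx⟩

theorem dens (h : Cx J₀ N₀ l r V b n T₀ run₀ P T run Q v T' rk J mm MM hK) :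
    ∃ dd : ℕ → Finset (Tor d (2 ^ μ)), (∀ x, T.s x = 0 → ∃ j ≤ n, x ∈ dd j) ∧
      ∀ j B, (dd j ∩ (Gt d μ J₀ N₀ l r).blk j B).card ≤ V.Dn j := by
  rw [← h.hΓ]
  exact h.fc.dens

/-- the dead sites afterwards -/
theorem dens' (h : Cx J₀ N₀ l r V b n T₀ run₀ P T run Q v T' rk J mm MM hK)
    (hS : (S run Q T').card ≤ V.Dn n) :
    ∃ dd : ℕ → Finset (Tor d (2 ^ μ)), (∀ x, T'.s x = 0 → ∃ j ≤ n, x ∈ dd j) ∧
      ∀ j B, (dd j ∩ (Gt d μ J₀ N₀ l r).blk j B).card ≤ 2 * V.Dn j := by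
  obtain ⟨dd, h1, h2⟩ := h.dens
  refine ⟨fun j => if j = n then dd j ∪ S run Q T' else dd j, fun x hx => ?_, fun j B => ?_⟩
  · by_cases hxS : x ∈ S run Q T'
    · exact ⟨n, le_rfl, by simp [hxS]⟩
    · rw [(h.same hxS).2.1] at hx
      obtain ⟨j, hj, hxj⟩ := h1 x hx
      refine ⟨j, hj, ?_⟩
      by_cases hjn : j = n
      · simp [hjn, hjn ▸ hxj]
      · simp [hjn, hxj]
  · by_cases hjn : j = n
    · simp only [if_pos hjn]
      rw [Finset.union_inter_distrib_right]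
      refine (Finset.card_union_le _ _).trans ?_
      have h3 := h2 j B
      have h4 := Finset.card_le_card
        (Finset.inter_subset_left (s₁ := S run Q T') (s₂ := (Gt d μ J₀ N₀ l r).blk j B))
      rw [hjn] at h3 ⊢
      rw [hjn] at h4
      omega
    · simp only [if_neg hjn]
      have h3 := h2 j B
      omega

theorem al_of (h : Cx J₀ N₀ l r V b n T₀ run₀ P T run Q v T' rk J mm MM hK)
    (x : Tor d (2 ^ μ)) (hx : T.s x ≠ 0) :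
    (V.cl (V.kk (n + 1)) : ℝ) * V.c₀ ≤ kap V.e₀ T x :=
  h.kap_ge (H16.mem_al.2 (pos_iff_ne_zero.2 hx))

theorem al_of' (h : Cx J₀ N₀ l r V b n T₀ run₀ P T run Q v T' rk J mm MM hK)
    (x : Tor d (2 ^ μ)) (hx : T'.s x ≠ 0) :
    (V.cl (V.kk (n + 1)) : ℝ) * V.c₀ ≤ kap V.e₀ T' x := by
  have h1 : x ∈ Al T' := H16.mem_al.2 (pos_iff_ne_zero.2 hx)
  rw [h.kap_eq (h.alive_not h1)]
  exact h.kap_ge (h.al_sub h1)

end Cx

/-- the change of the resolvent at all nodes -/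
structure Pk (V : Env d (2 ^ μ)) (n : ℕ) (T T' : Cfg (Tor d (2 ^ μ)))
    (Q : Finset (Tor d (2 ^ μ))) (J₁ m₁ E₁ c : ℝ) : Prop where
  near : ∀ x ∈ Al T', x ∈ V.Γ.nbh Q (V.Γ.ρ n) →
    (∀ y ∈ Al T', ‖net V.E V.e₀ T' x y - net V.E V.e₀ T x y‖ ≤ J₁) ∧
    ∑ y ∈ Al T', kap V.e₀ T y * ‖net V.E V.e₀ T' x y - net V.E V.e₀ T x y‖ ^ 2 ≤ m₁
  far : ∀ x ∈ Al T', x ∉ V.Γ.nbh Q (V.Γ.ρ n) → ∃ q ∈ Q, V.Γ.ρ n < V.Γ.D x q ∧
    (∀ y ∈ Al T', ‖net V.E V.e₀ T' x y - net V.E V.e₀ T x y‖ ≤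
      E₁ * Real.exp (-(c * V.Γ.D x q))) ∧
    ∑ y ∈ Al T', kap V.e₀ T y * ‖net V.E V.e₀ T' x y - net V.E V.e₀ T x y‖ ^ 2 ≤
      E₁ * Real.exp (-(c * V.Γ.D x q))

namespace Cx

variable {J₀ N₀ : ℕ} {l r : ℕ → ℕ} {V : Env d (2 ^ μ)} {b : Bud} {n : ℕ}
  {T₀ : Cfg (Tor d (2 ^ μ))} {run₀ P : Finset (Tor d (2 ^ μ))} {T : Cfg (Tor d (2 ^ μ))}
  {run Q : Finset (Tor d (2 ^ μ))} {v : Tor d (2 ^ μ) → ℝ} {T' : Cfg (Tor d (2 ^ μ))}
  {rk : ℕ} {J mm MM hK : ℝ}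

/-- (PK) the change of the resolvent at all nodes -/
theorem pk (h : Cx J₀ N₀ l r V b n T₀ run₀ P T run Q v T' rk J mm MM hK)
    (hsum : ∑ i ∈ Finset.range (n + 1), (3 ^ d * V.Dn i : ℝ) / 2 ^ l i ≤ 1 / 4)
    {k₀ β : ℝ} (hk₀ : k₀ = (V.cl (V.kk (n + 1)) : ℝ) * V.c₀) (hβ : β = k₀ / (8 * d))
    (hk1 : k₀ ≤ 1) (hρ : (rk : ℝ) / 2 + Zc d n V.Dn ≤ (V.Γ.ρ n : ℝ) / 4) (hJ : 0 ≤ J) (hmm : 0 ≤ mm) :
    Pk V n T T' Q (J + 4 / k₀ * Real.exp (-(β / 4 * V.Γ.ρ n)))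
      (mm + 8 / k₀ * Real.exp (-(β / 4 * V.Γ.ρ n))) (8 / k₀) (β / 4) := by
  have hk : 0 < k₀ := by
    rw [hk₀]
    have h1 : (0 : ℝ) < V.cl (V.kk (n + 1)) := by exact_mod_cast h.clp
    exact mul_pos h1 h.c0
  obtain ⟨φ, hU, hφ⟩ := upd_all h.hl (E := V.E) (k₀ := k₀) h.S_ne h.e0 h.im_nonneg h.im_nonneg'
    (fun x hx => h.same hx) h.dens hsum hk hk1 (fun x hx => hk₀ ▸ h.al_of x hx)
    (fun x hx => hk₀ ▸ h.al_of' x hx)
  rw [← hβ] at hU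
  have hβ0 : 0 ≤ β := hU.hβ
  have hD := h.D_eq
  have hcomm := h.geo.comm
  have htri := h.geo.tri
  have hA : ∀ x ∈ Al T', x ∈ (Finset.univ.filter fun x => T.s x ≠ 0 ∧ T'.s x ≠ 0) :=
    fun x hx => Finset.mem_filter.2 ⟨Finset.mem_univ _, (H16.mem_al.1 (h.al_sub hx)).ne',
      (H16.mem_al.1 hx).ne'⟩
  -- the plateau function at far sites
  have hfar : ∀ y, y ∉ V.Γ.nbh Q (V.Γ.ρ n) → ∃ q ∈ Q, V.Γ.ρ n < V.Γ.D y q ∧
      (V.Γ.D y q : ℝ) / 4 ≤ φ y := by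
    intro y hy
    obtain ⟨x, hx, h1⟩ := hφ y
    obtain ⟨q, hq, hxq⟩ : ∃ q ∈ Q, V.Γ.D x q ≤ rk := by
      rcases Finset.mem_union.1 hx with h2 | h2
      · exact ⟨x, h2, by rw [h.geo.self]; exact Nat.zero_le _⟩
      · obtain ⟨q, hq, hxq⟩ := mem_nbh.1 (h.f1.near h2)
        exact ⟨q, hq, hxq⟩
    have h2 : V.Γ.ρ n < V.Γ.D y q := by
      by_contra hc
      exact hy (mem_nbh.2 ⟨q, hq, not_lt.1 hc⟩)
    refine ⟨q, hq, h2, ?_⟩
    have h3 : (V.Γ.D y q : ℝ) ≤ V.Γ.D x y + rk := by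
      have h4 := htri y x q
      have h5 := hcomm y x
      exact_mod_cast (by omega : V.Γ.D y q ≤ V.Γ.D x y + rk)
    have h6 : (V.Γ.ρ n : ℝ) < V.Γ.D y q := by exact_mod_cast h2
    rw [← hD] at h1
    linarith
  have hent : ∀ x ∈ Al T', ∀ y ∈ Al T', ‖net V.E V.e₀ T' x y - net V.E V.e₀ T x y‖ ≤
      4 / k₀ * Real.exp (-(β * (φ x + φ y))) := fun x hx y hy =>
    hU.ent (hA x hx) (hA y hy) fun hh => h.alive_not hx hh.1
  have hφ0 : ∀ x, 0 ≤ φ x := hU.plt.nn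
  have hs := fun x y => (ANR.H89.hGeq _ _ _ hU.n).2.1 x y
  have hs' := fun x y => (ANR.H89.hGeq _ _ _ hU.n').2.1 x y
  have hmass : ∀ x ∈ Al T', ∀ B : Finset (Tor d (2 ^ μ)), B ⊆ Al T' →
      ∑ y ∈ B, kap V.e₀ T y * ‖net V.E V.e₀ T' x y - net V.E V.e₀ T x y‖ ^ 2 ≤
        8 / k₀ * Real.exp (-(2 * β * φ x)) := by
    intro x hx B hB
    have hxF := h.alive_not hx
    obtain ⟨h1, -, -⟩ := hU.mass hxF
    have h2 : ∑ y ∈ B, kap V.e₀ T y * ‖net V.E V.e₀ T' x y - net V.E V.e₀ T x y‖ ^ 2 ≤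
        ∑ z ∈ (S run Q T')ᶜ, kap V.e₀ T z *
          ‖Gr (Hr (Vef T) V.E) (kap V.e₀ T) z x - Gr (Hr (Vef T') V.E) (kap V.e₀ T') z x‖ ^ 2 := by
      refine le_trans (le_of_eq ?_) (Finset.sum_le_sum_of_subset_of_nonneg (s := B) ?_ ?_)
      · refine Finset.sum_congr rfl fun y _ => ?_
        rw [hs y x, hs' y x, norm_sub_rev]
        rfl
      · intro y hy
        rw [Finset.mem_compl]
        exact h.alive_not (hB hy)
      · intro y _ _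
        exact mul_nonneg (hU.n.pos y).le (sq_nonneg _)
    refine h2.trans (h1.trans ?_)
    refine mul_le_mul_of_nonneg_right ?_ (Real.exp_pos _).le
    have h3 : k₀ ≤ kap V.e₀ T x := hk₀ ▸ h.kap_ge (h.al_sub hx)
    exact div_le_div_of_nonneg_left (by norm_num) hk h3
  have h4k : 0 ≤ 4 / k₀ := by positivity
  have h8k : 0 ≤ 8 / k₀ := by positivity
  refine ⟨fun x hx hn => ⟨fun y hy => ?_, ?_⟩, fun x hx hn => ?_⟩
  · by_cases hyn : y ∈ V.Γ.nbh Q (V.Γ.ρ n)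
    · have h1 := h.f1.ent x (h.near_run hx hn) y (h.near_run hy hyn)
      have := Real.exp_pos (-(β / 4 * V.Γ.ρ n))
      have : 0 ≤ 4 / k₀ * Real.exp (-(β / 4 * V.Γ.ρ n)) := by positivity
      linarith
    · obtain ⟨q, hq, h1, h2⟩ := hfar y hyn
      have h3 : (V.Γ.ρ n : ℝ) ≤ V.Γ.D y q := by exact_mod_cast h1.le
      have h4 := hent x hx y hy
      have h5 : 4 / k₀ * Real.exp (-(β * (φ x + φ y))) ≤
          4 / k₀ * Real.exp (-(β / 4 * V.Γ.ρ n)) := by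
        refine mul_le_mul_of_nonneg_left (Real.exp_le_exp.2 ?_) h4k
        have := hφ0 x
        nlinarith
      linarith
  · -- the mass of a near site
    rw [← Finset.sum_filter_add_sum_filter_not (Al T') (fun y => y ∈ V.Γ.nbh Q (V.Γ.ρ n))]
    refine add_le_add ?_ ?_
    · refine le_trans (Finset.sum_le_sum_of_subset_of_nonneg ?_ ?_)
        (h.f1.mx x (h.near_run hx hn))
      · intro y hy
        obtain ⟨h1, h2⟩ := Finset.mem_filter.1 hy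
        exact h.near_run h1 h2
      · intro y _ _
        exact mul_nonneg (hU.n.pos y).le (sq_nonneg _)
    · set B := (Al T').filter fun y => ¬ y ∈ V.Γ.nbh Q (V.Γ.ρ n) with hB
      have hBA : B ⊆ Al T' := Finset.filter_subset _ _
      have hφB : ∀ y ∈ B, (V.Γ.ρ n : ℝ) / 4 ≤ φ y := by
        intro y hy
        obtain ⟨q, hq, h1, h2⟩ := hfar y (Finset.mem_filter.1 hy).2
        have h3 : (V.Γ.ρ n : ℝ) ≤ V.Γ.D y q := by exact_mod_cast h1.le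
        linarith
      by_cases hx8 : (V.Γ.ρ n : ℝ) / 8 ≤ φ x
      · refine (hmass x hx B hBA).trans (mul_le_mul_of_nonneg_left (Real.exp_le_exp.2 ?_) h8k)
        nlinarith
      · push Not at hx8
        have h1 := hU.ww x
        have h2 := hU.ww' x
        have him : ∀ (H : Matrix (Tor d (2 ^ μ)) (Tor d (2 ^ μ)) ℝ) (κ : Tor d (2 ^ μ) → ℝ),
            ANR.Net H κ → k₀ ≤ κ x →
            ∑ b, κ b * (Real.exp (2 * β * |φ b - φ x|) * ‖Gr H κ x b‖ ^ 2) ≤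
              2 * (Gr H κ x x).im →
            ∑ y ∈ B, κ y * ‖Gr H κ x y‖ ^ 2 ≤ 2 / k₀ * Real.exp (-(β / 4 * V.Γ.ρ n)) := by
          intro H κ hN hkx hw
          have h3 : ∑ y ∈ B, κ y * ‖Gr H κ x y‖ ^ 2 * Real.exp (β / 4 * V.Γ.ρ n) ≤
              ∑ b, κ b * (Real.exp (2 * β * |φ b - φ x|) * ‖Gr H κ x b‖ ^ 2) := by
            refine le_trans (Finset.sum_le_sum (g := fun b =>
              κ b * (Real.exp (2 * β * |φ b - φ x|) * ‖Gr H κ x b‖ ^ 2)) fun y hy => ?_)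
              (Finset.sum_le_sum_of_subset_of_nonneg (Finset.subset_univ B) fun y _ _ =>
                mul_nonneg (hN.pos y).le (mul_nonneg (Real.exp_pos _).le (sq_nonneg _)))
            rw [mul_assoc]
            refine mul_le_mul_of_nonneg_left ?_ (hN.pos y).le
            rw [mul_comm]
            refine mul_le_mul_of_nonneg_right (Real.exp_le_exp.2 ?_) (sq_nonneg _)
            have h4 := hφB y hy
            have h5 : (V.Γ.ρ n : ℝ) / 8 ≤ |φ y - φ x| :=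
              le_trans (by linarith) (le_abs_self (φ y - φ x))
            nlinarith
          rw [← Finset.sum_mul] at h3
          have h6 : 2 * (Gr H κ x x).im ≤ 2 / k₀ := by
            have := ANR.H89.im_le hN hk hkx
            have e : 2 / k₀ = 2 * (1 / k₀) := by ring
            rw [e]
            linarith
          have h7 := (h3.trans hw).trans h6
          rw [Real.exp_neg, ← div_eq_mul_inv, le_div_iff₀ (Real.exp_pos _)]
          exact h7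
        have g1 := him _ _ hU.n (hk₀ ▸ h.kap_ge (h.al_sub hx)) h1
        have g2 := him _ _ hU.n' (by rw [h.kap_eq (h.alive_not hx), hk₀]
                                     exact h.kap_ge (h.al_sub hx)) h2
        have g3 : ∑ y ∈ B, kap V.e₀ T y *
            ‖net V.E V.e₀ T' x y - net V.E V.e₀ T x y‖ ^ 2 ≤
            ∑ y ∈ B, (2 * (kap V.e₀ T' y *
              ‖Gr (Hr (Vef T') V.E) (kap V.e₀ T') x y‖ ^ 2) +
              2 * (kap V.e₀ T y * ‖Gr (Hr (Vef T) V.E) (kap V.e₀ T) x y‖ ^ 2)) := by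
          refine Finset.sum_le_sum fun y hy => ?_
          rw [h.kap_eq (h.alive_not (hBA hy))]
          have e1 : ‖net V.E V.e₀ T' x y - net V.E V.e₀ T x y‖ ^ 2 ≤
              2 * ‖Gr (Hr (Vef T') V.E) (kap V.e₀ T') x y‖ ^ 2 +
              2 * ‖Gr (Hr (Vef T) V.E) (kap V.e₀ T) x y‖ ^ 2 := by
            have e2 : ‖net V.E V.e₀ T' x y - net V.E V.e₀ T x y‖ ≤
                ‖Gr (Hr (Vef T') V.E) (kap V.e₀ T') x y‖ +
                ‖Gr (Hr (Vef T) V.E) (kap V.e₀ T) x y‖ := norm_sub_le _ _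
            have e3 := pow_le_pow_left₀ (norm_nonneg _) e2 2
            refine e3.trans ?_
            nlinarith [sq_nonneg (‖Gr (Hr (Vef T') V.E) (kap V.e₀ T') x y‖ -
              ‖Gr (Hr (Vef T) V.E) (kap V.e₀ T) x y‖)]
          have e4 := mul_le_mul_of_nonneg_left e1 (hU.n.pos y).le
          linarith
        refine g3.trans ?_
        rw [Finset.sum_add_distrib, ← Finset.mul_sum, ← Finset.mul_sum]
        have e : 8 / k₀ * Real.exp (-(β / 4 * V.Γ.ρ n)) =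
          2 * (2 / k₀ * Real.exp (-(β / 4 * V.Γ.ρ n))) +
          2 * (2 / k₀ * Real.exp (-(β / 4 * V.Γ.ρ n))) := by ring
        rw [e]
        linarith
  · obtain ⟨q, hq, h1, h2⟩ := hfar x hn
    refine ⟨q, hq, h1, fun y hy => ?_, ?_⟩
    · refine (hent x hx y hy).trans ?_
      have h3 : 4 / k₀ ≤ 8 / k₀ := div_le_div_of_nonneg_right (by norm_num) hk.le
      refine mul_le_mul h3 (Real.exp_le_exp.2 ?_) (Real.exp_pos _).le h8k
      have := hφ0 y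
      nlinarith
    · refine (hmass x hx (Al T') le_rfl).trans
        (mul_le_mul_of_nonneg_left (Real.exp_le_exp.2 ?_) h8k)
      have h3 : (0 : ℝ) ≤ V.Γ.D x q := Nat.cast_nonneg _
      nlinarith

end Cx

end Pool.Agent.KL2
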