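import Pool.Agent.Helper34_KL2.Cen

/-!
# Kill and release of a cluster in the normal form: cut of the changed sites, then change of `G`
-/

set_option autoImplicit false
set_option linter.unusedSectionVars false

open scoped BigOperators
open Finset

noncomputable section

namespace Pool.Agent.KL2

open Pool.Agent.LTG Pool.Agent.ANR Pool.Agent.ANP.H61 Pool.Agent.CTC

variable {d M : ℕ} [NeZero M]

/-- `x` is near the changed sites -/
def nr (S : Finset (Tor d M)) (t : ℕ) (x : Tor d M) : Prop := ∃ q ∈ S, 4 * sd x q ≤ t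

open Classical in
/-- the numbers of one kill and release: `Q` the cluster, `S = Q ∪ K` the sites which die, `A` the nodes
before, `t` the linking distance, cubes of side `2 ^ (k + 2)` -/
structure KF (Q S A : Finset (Tor d M)) (G G' : Matrix (Tor d M) (Tor d M) ℂ)
    (κ w m : Tor d M → ℝ) (k t : ℕ) (W₁ c₁ Wt θ δ T θ₁ δ₁ T₁ : ℝ) : Prop where
  hM : 2 ^ (k + 2) ≤ M
  hQS : Q ⊆ S
  hSA : S ⊆ A
  hS : S.Nonempty
  hQt : ∀ x ∈ S, ∃ q ∈ Q, sd x q ≤ t
  hgeo : S.card * t + t + 1 ≤ 2 ^ k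
  hs : ∀ x y, G x y = G y x
  hs' : ∀ x y, G' x y = G' y x
  hκ : ∀ x ∈ A, 0 ≤ κ x
  hw : ∀ x ∈ A, 0 < w x
  hc : 0 < c₁ ∧ c₁ ≤ 1
  hW₁ : 0 ≤ W₁
  pos : 0 ≤ θ ∧ 0 ≤ δ ∧ 0 ≤ θ₁ ∧ 0 ≤ δ₁
  /-- decay -/
  d1 : ∀ x ∈ A, ∀ y ∈ A, κ x * κ y * ‖G x y‖ ^ 2 ≤ W₁ * Real.exp (-(c₁ * sd x y))
  d2 : ∀ x ∈ A \ S, ∀ y ∈ A \ S, κ x * κ y * ‖G' x y‖ ^ 2 ≤ W₁ * Real.exp (-(c₁ * sd x y))
  d3 : ∀ x ∈ A \ S, ∀ y ∈ A \ S, ∃ q ∈ S,
    κ x * κ y * ‖G x y - G' x y‖ ^ 2 ≤ W₁ * Real.exp (-(c₁ * sd x q))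
  e1 : (S.card : ℝ) * (W₁ * Real.exp (-(c₁ / 2 * 2 ^ k))) ≤ Wt
  e2 : 6 * W₁ * Real.exp (-(c₁ / 12 * t)) ≤ Wt
  /-- the flux into `S` -/
  f1 : ∀ x ∈ A \ S, (∃ q ∈ Q, sd x q ≤ 2 ^ (k + 2)) →
    κ x * fl G κ S x ≤ θ₁ ∧ κ x * fl G κ S x ≤ δ₁ * w x
  f2 : ∀ x ∈ S, (S.card : ℝ) * (W₁ * Real.exp (-(c₁ * t))) ≤ θ₁ ∧
    (S.card : ℝ) * (W₁ * Real.exp (-(c₁ * t))) ≤ δ₁ * w x
  f3 : ∑ c ∈ S, κ c * ∑ x ∈ A, κ x * ‖G c x‖ ^ 2 ≤ T₁
  /-- the change of `G` near `S` -/
  m0 : ∀ x ∈ A \ S, nr S t x → 0 ≤ m x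
  m1 : ∀ x ∈ A \ S, nr S t x →
    ∑ y ∈ (A \ S).filter (nr S t), κ y * ‖G x y - G' x y‖ ^ 2 ≤ m x
  m2 : ∀ x ∈ A \ S, nr S t x → κ x * m x ≤ θ ∧ κ x * m x ≤ δ * w x
  m3 : ∑ x ∈ (A \ S).filter (nr S t), κ x * m x ≤ T

theorem exp_le_of {a b : ℝ} (h : a ≤ b) : Real.exp (-b) ≤ Real.exp (-a) :=
  Real.exp_le_exp.2 (neg_le_neg h)

/-- the three cases of a tail pair -/
theorem tail_pair {κx κy g g' D W₁ c₁ Wt a b s tt : ℝ} (hκx : 0 ≤ κx) (hκy : 0 ≤ κy) (hg : 0 ≤ g)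
    (hD : 0 ≤ D) (hDg : D ≤ g + g')
    (hW₁ : 0 ≤ W₁) (hc : 0 < c₁)
    (h1 : κx * κy * g ^ 2 ≤ W₁ * Real.exp (-(c₁ * s)))
    (h2 : κx * κy * g' ^ 2 ≤ W₁ * Real.exp (-(c₁ * s)))
    (ha : 0 ≤ a) (hb : 0 ≤ b) (hs : 0 ≤ s)
    (hWt : 6 * W₁ * Real.exp (-(c₁ / 12 * tt)) ≤ Wt)
    (hcase : (κx * κy * D ^ 2 ≤ W₁ * Real.exp (-(c₁ * a)) ∧ b ≤ s + a ∧ tt ≤ 4 * a) ∨
      (a + b ≤ 2 * s ∧ tt ≤ 2 * s)) :
    κx * κy * (g * D + D ^ 2) ≤ Wt * Real.exp (-(c₁ / 16 * (a + b))) := by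
  have hκ : 0 ≤ κx * κy := mul_nonneg hκx hκy
  set k := κx * κy with hk
  have e0 : ∀ r : ℝ, 0 < Real.exp (-r) := fun r => Real.exp_pos _
  rcases hcase with ⟨h3, h4, h5⟩ | ⟨h4, h5⟩
  · -- geometric means
    have hd2 : k * D ^ 2 ≤ 4 * W₁ * Real.exp (-(c₁ * s)) := by
      have e1 : D ^ 2 ≤ 2 * g ^ 2 + 2 * g' ^ 2 := by nlinarith [sq_nonneg (g - g')]
      nlinarith [mul_le_mul_of_nonneg_left e1 hκ]
    have E1 : Real.exp (-(c₁ * s)) * Real.exp (-(c₁ * a)) = Real.exp (-(c₁ / 2 * (s + a))) ^ 2 := by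
      rw [← Real.exp_add, ← Real.exp_nat_mul]
      congr 1
      push_cast
      ring
    set F := Real.exp (-(c₁ / 2 * (s + a))) with hF
    have hF0 : 0 < F := Real.exp_pos _
    have i1 : (k * (g * D)) ^ 2 ≤ (W₁ * F) ^ 2 := by
      have : (k * (g * D)) ^ 2 = (k * g ^ 2) * (k * D ^ 2) := by ring
      rw [this]
      refine (mul_le_mul h1 h3 (mul_nonneg hκ (sq_nonneg _)) (by positivity)).trans (le_of_eq ?_)
      rw [mul_pow, ← E1]
      ring
    have i2 : (k * D ^ 2) ^ 2 ≤ (2 * (W₁ * F)) ^ 2 := by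
      have : (k * D ^ 2) ^ 2 = (k * D ^ 2) * (k * D ^ 2) := by ring
      rw [this]
      refine (mul_le_mul hd2 h3 (mul_nonneg hκ (sq_nonneg _)) (by positivity)).trans (le_of_eq ?_)
      rw [mul_pow, mul_pow, ← E1]
      ring
    have j1 := (pow_le_pow_iff_left₀ (mul_nonneg hκ (mul_nonneg hg hD)) (by positivity)
      (by norm_num)).1 i1
    have j2 := (pow_le_pow_iff_left₀ (mul_nonneg hκ (sq_nonneg D)) (by positivity)
      (by norm_num)).1 i2
    have i3 : F ≤ Real.exp (-(c₁ / 12 * tt)) * Real.exp (-(c₁ / 16 * (a + b))) := by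
      rw [← Real.exp_add]
      refine Real.exp_le_exp.2 ?_
      nlinarith
    have i4 : 3 * (W₁ * F) ≤ 6 * W₁ * Real.exp (-(c₁ / 12 * tt)) *
        Real.exp (-(c₁ / 16 * (a + b))) := by
      have := mul_le_mul_of_nonneg_left i3 hW₁
      have : 0 ≤ W₁ * F := by positivity
      nlinarith
    calc k * (g * D + D ^ 2) = k * (g * D) + k * D ^ 2 := by ring
      _ ≤ W₁ * F + 2 * (W₁ * F) := add_le_add j1 j2
      _ = 3 * (W₁ * F) := by ring
      _ ≤ _ := i4.trans (mul_le_mul_of_nonneg_right hWt (e0 _).le)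
  · have i1 : g * D + D ^ 2 ≤ 7 / 2 * g ^ 2 + 5 / 2 * g' ^ 2 := by
      have hgD := mul_le_mul_of_nonneg_left hDg hg
      have e1 : D ^ 2 ≤ (g + g') ^ 2 := pow_le_pow_left₀ hD hDg 2
      nlinarith [sq_nonneg (g - g')]
    have i2 : k * (g * D + D ^ 2) ≤ 6 * W₁ * Real.exp (-(c₁ * s)) := by
      have := mul_le_mul_of_nonneg_left i1 hκ
      nlinarith
    have i3 : Real.exp (-(c₁ * s)) ≤ Real.exp (-(c₁ / 12 * tt)) *
        Real.exp (-(c₁ / 16 * (a + b))) := by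
      rw [← Real.exp_add]
      refine Real.exp_le_exp.2 ?_
      nlinarith
    have i4 := mul_le_mul_of_nonneg_left i3 (by positivity : 0 ≤ 6 * W₁)
    refine i2.trans (i4.trans ?_)
    rw [← mul_assoc]
    exact mul_le_mul_of_nonneg_right hWt (e0 _).le

open Classical in
/-- (KFM) THE FORM AFTER THE KILL AND RELEASE OF A CLUSTER -/
theorem kfm (hcut : CutStmt) (hd : 3 ≤ d) (Jc Jr : ℕ) {Q S A : Finset (Tor d M)}
    {G G' : Matrix (Tor d M) (Tor d M) ℂ} {κ w m : Tor d M → ℝ} {k t : ℕ}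
    {W₁ c₁ Wt θ δ T θ₁ δ₁ T₁ : ℝ} (h : KF Q S A G G' κ w m k t W₁ c₁ Wt θ δ T θ₁ δ₁ T₁)
    {εl εu : Tor d M → ℝ} {bl bu : Bd d M → ℝ} {ε b₀ b₁ cu u : ℝ}
    (hF : Fm sT tT A w εl εu bl bu (cE G κ A))
    (hε : 0 < ε) (hε1 : ε ≤ 1) (h0 : ∀ x ∈ A, 0 ≤ εl x) (h0u : ∀ x ∈ A, 0 ≤ εu x)
    (hcu : ∀ x ∈ A, 1 ≤ cu * (1 - εu x)) (hcu0 : 0 ≤ cu)
    (hb₀ : 0 < b₀) (hb : ∀ e, (∃ q ∈ Q, sd (sT e) q ≤ 2 ^ (k + 2)) → b₀ ≤ bu e ∧ bu e ≤ b₁)
    (hb₁ : 0 ≤ b₁) (hu0 : 0 ≤ u)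
    (hu1 : ε * ((2 + 32 * (d : ℝ) ^ 2 * (b₁ / b₀)) * cu) + 8 / ε * δ ≤ u)
    (hu2 : ε * ((2 + 32 * (d : ℝ) ^ 2 * (b₁ / b₀)) * b₁) + 8 / ε * fac d Jr θ T ≤ u * b₁)
    {ν : Tor d M → ℝ} {νb : Bd d M → ℝ}
    (hν : ∀ x ∈ A, 4 * ((2 * δ₁ + u) * (Q.card * if ∃ q ∈ Q, sd x q ≤ 2 ^ (k + 2) then 1 else 0)) +
      8 * (CT d (c₁ / 16) * Wt * (∑ q ∈ S, Real.exp (-(c₁ / 16 / (4 * d) * sd x q))) / w x) ≤ ν x)
    (hνb : ∀ e, (2 * fac d Jc θ₁ T₁ + u * b₁) *
        (Q.card * if ∃ q ∈ Q, sd (sT e) q ≤ 2 ^ (k + 2) then 1 else 0) +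
      2 * (CT d (c₁ / 16) * Wt * (∑ q ∈ S, Real.exp (-(c₁ / 16 / (4 * d) * sd (sT e) q)))) ≤ νb e)
    (hν1 : ∀ x ∈ A, εl x + ν x ≤ 1 / 4) (hν2 : ∀ x ∈ A, εu x + ν x < 1) :
    Fm sT tT (A \ S) w (fun x => εl x + ν x) (fun x => εu x + ν x) (fun e => bl e - νb e)
      (fun e => bu e + νb e) (cE G' κ (A \ S)) := by
  obtain ⟨hc, hc1⟩ := h.hc
  obtain ⟨hθ, hδ, hθ₁, hδ₁⟩ := h.pos
  have hWt0 : 0 ≤ Wt := by
    have := h.hW₁
    refine le_trans ?_ h.e2
    positivity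
  have hsdc : ∀ x y : Tor d M, (sd x y : ℝ) = sd y x := fun x y => by rw [sd_comm]
  have htri : ∀ x y z : Tor d M, (sd x z : ℝ) ≤ sd x y + sd y z := fun x y z => by
    exact_mod_cast sd_tri x y z
  -- the clusters
  obtain ⟨rep, hrep, hsep⟩ := comp (sd (d := d) (M := M)) sd_self sd_comm sd_tri S t
  set K : ℕ := 2 ^ (k + 1) with hKdef
  have hK2 : 2 ^ (k + 2) = 2 * K := by rw [hKdef]; ring
  have hKk : K = 2 * 2 ^ k := by rw [hKdef]; ring
  have hKM : 2 * K ≤ M := hK2 ▸ h.hM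
  set I : Finset (Tor d M) := S.image rep with hI
  set a₀ : Tor d M → Tor d M := fun j => cor K j with ha₀
  set Qj : Tor d M → Finset (Tor d M) := fun j => S.filter fun x => rep x = j with hQj
  have hIS : I ⊆ S := by
    intro j hj
    obtain ⟨x, hx, rfl⟩ := Finset.mem_image.1 hj
    exact (hrep x hx).1
  have hIQ : ∀ j ∈ I, ∃ q ∈ Q, rep q = j := by
    intro j hj
    obtain ⟨x, hx, rfl⟩ := Finset.mem_image.1 hj
    obtain ⟨q, hq, hxq⟩ := h.hQt x hx
    refine ⟨q, hq, ?_⟩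
    by_contra hne
    have := hsep x hx q (h.hQS hq) (Ne.symm hne)
    omega
  have hIcard : (I.card : ℝ) ≤ Q.card := by
    have h1 : I ⊆ Q.image rep := by
      intro j hj
      obtain ⟨q, hq, hqj⟩ := hIQ j hj
      exact Finset.mem_image.2 ⟨q, hq, hqj⟩
    exact_mod_cast (Finset.card_le_card h1).trans Finset.card_image_le
  have hUn : I.biUnion Qj = S := by
    ext x
    rw [Finset.mem_biUnion]
    constructor
    · rintro ⟨j, _, hx⟩
      exact (Finset.mem_filter.1 hx).1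
    · intro hx
      exact ⟨rep x, Finset.mem_image_of_mem rep hx, Finset.mem_filter.2 ⟨hx, rfl⟩⟩
  have hQjS : ∀ j, Qj j ⊆ S := fun j => Finset.filter_subset _ _
  -- a site of `Qj j` is close to `j`
  have hclose : ∀ j, ∀ c ∈ Qj j, sd c j ≤ S.card * t := by
    intro j c hcj
    obtain ⟨hcS, hcr⟩ := Finset.mem_filter.1 hcj
    have := (hrep c hcS).2.2
    rwa [hcr] at this
  -- the cubes are near `Q`
  have hBQ : ∀ j ∈ I, ∀ x, Box (a₀ j) (2 * K) x → ∃ q ∈ Q, sd x q ≤ 2 ^ (k + 2) := by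
    intro j hj x hx
    obtain ⟨q, hq, hqj⟩ := hIQ j hj
    refine ⟨q, hq, ?_⟩
    have i1 := box_sd hKM hx
    have i2 := hclose j q (Finset.mem_filter.2 ⟨h.hQS hq, hqj⟩)
    have i3 := sd_tri x j q
    have i4 := sd_comm q j
    have i5 := h.hgeo
    rw [hK2]
    omega
  have hnb : ∀ x, nb I a₀ (2 * K) x ≤
      Q.card * (if ∃ q ∈ Q, sd x q ≤ 2 ^ (k + 2) then 1 else 0) := by
    intro x
    by_cases hx : ∃ q ∈ Q, sd x q ≤ 2 ^ (k + 2)
    · rw [if_pos hx, mul_one]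
      exact (nb_le_card I a₀ (2 * K) x).trans hIcard
    · rw [if_neg hx, mul_zero]
      refine le_of_eq (Finset.sum_eq_zero fun j hj => if_neg fun hb => hx (hBQ j hj x hb))
  have hnbE : ∀ e, nbE I a₀ (2 * K) e ≤
      Q.card * (if ∃ q ∈ Q, sd (sT e) q ≤ 2 ^ (k + 2) then 1 else 0) := by
    intro e
    refine le_trans (Finset.sum_le_sum fun j _ => ?_) (hnb (sT e))
    by_cases hb : Box (a₀ j) (2 * K) (sT e)
    · rw [if_pos hb]
      split <;> norm_num
    · rw [if_neg hb, if_neg (fun h => hb h.1)]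
  have hCT : 0 ≤ CT d (c₁ / 16) := by
    unfold CT
    positivity
  -- the sum of the tails
  set Ex : Tor d M → ℝ := fun x => ∑ q ∈ S, Real.exp (-(c₁ / 16 / (4 * d) * sd x q)) with hEx
  have hEx0 : ∀ x, 0 ≤ Ex x := fun x => Finset.sum_nonneg fun _ _ => (Real.exp_pos _).le
  have hExI : ∀ x, ∑ j ∈ I, Real.exp (-(c₁ / 16 / (4 * d) * sd x j)) ≤ Ex x := fun x =>
    Finset.sum_le_sum_of_subset_of_nonneg hIS fun _ _ _ => (Real.exp_pos _).le
  have hν' : ∀ x ∈ A, 4 * (2 * δ₁ * nb I a₀ (2 * K) x + CT d (c₁ / 16) * Wt *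
      (∑ j ∈ I, Real.exp (-(c₁ / 16 / (4 * d) * sd x j))) / w x) +
      4 * (u * nb I a₀ (2 * K) x + CT d (c₁ / 16) * Wt * Ex x / w x) ≤ ν x := by
    intro x hx
    refine le_trans ?_ (hν x hx)
    have hwx := h.hw x hx
    have i1 := mul_le_mul_of_nonneg_left (hnb x) (by positivity : 0 ≤ 4 * (2 * δ₁ + u))
    have i2 : CT d (c₁ / 16) * Wt * (∑ j ∈ I, Real.exp (-(c₁ / 16 / (4 * d) * sd x j))) / w x ≤
        CT d (c₁ / 16) * Wt * Ex x / w x :=
      div_le_div_of_nonneg_right (mul_le_mul_of_nonneg_left (hExI x) (mul_nonneg hCT hWt0)) hwx.le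
    linarith
  have hnn1 : ∀ x ∈ A, 0 ≤ 4 * (2 * δ₁ * nb I a₀ (2 * K) x + CT d (c₁ / 16) * Wt *
      (∑ j ∈ I, Real.exp (-(c₁ / 16 / (4 * d) * sd x j))) / w x) := by
    intro x hx
    have := h.hw x hx
    have := nb_nonneg I a₀ (2 * K) x
    have : 0 ≤ ∑ j ∈ I, Real.exp (-(c₁ / 16 / (4 * d) * sd x j)) :=
      Finset.sum_nonneg fun _ _ => (Real.exp_pos _).le
    positivity
  have hnn2 : ∀ x ∈ A, 0 ≤ 4 * (u * nb I a₀ (2 * K) x + CT d (c₁ / 16) * Wt * Ex x / w x) := by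
    intro x hx
    have := h.hw x hx
    have := nb_nonneg I a₀ (2 * K) x
    have := hEx0 x
    positivity
  have hc16 : 3 * c₁ / 16 / 3 = c₁ / 16 := by ring
  -- fluxes
  have hfl : ∀ x ∈ A, ∀ j, κ x * fl G κ (Qj j) x ≤ κ x * fl G κ S x := by
    intro x hx j
    refine mul_le_mul_of_nonneg_left ?_ (h.hκ x hx)
    unfold fl
    exact Finset.sum_le_sum_of_subset_of_nonneg (hQjS j) fun c hc' _ =>
      mul_nonneg (h.hκ c (h.hSA hc')) (sq_nonneg _)
  have hfs : ∀ x, ∀ j, κ x * fl G κ (Qj j) x = ∑ c ∈ Qj j, κ x * κ c * ‖G x c‖ ^ 2 := by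
    intro x j
    unfold fl
    rw [Finset.mul_sum]
    exact Finset.sum_congr rfl fun c _ => by ring
  have hcardj : ∀ j, ((Qj j).card : ℝ) ≤ S.card := fun j => by
    exact_mod_cast Finset.card_le_card (hQjS j)
  -- the cut
  have hC := cut_torJ hcut hd I Jc (k := k + 2) h.hM a₀ (fun j => j) (Q := Qj)
    (fun j _ => (hQjS j).trans h.hSA)
    (fun i _ j _ hij => by
      rw [Finset.disjoint_left]
      intro x hx hx'
      exact hij ((Finset.mem_filter.1 hx).2.symm.trans (Finset.mem_filter.1 hx').2))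
    h.hs h.hκ hF h.hw h0 (θ := θ₁) (T := T₁) (δ := δ₁) (W := Wt) (c := 3 * c₁ / 16) hθ₁ hδ₁ hWt0
    (by positivity) (by linarith)
    (fun j hj x hx hbx => by
      rw [hK2] at hbx
      obtain ⟨hxA, hxQ⟩ := Finset.mem_sdiff.1 hx
      by_cases hxS : x ∈ S
      · have i1 : κ x * fl G κ (Qj j) x ≤ (S.card : ℝ) * (W₁ * Real.exp (-(c₁ * t))) := by
          rw [hfs]
          refine (Finset.sum_le_card_nsmul _ _ (W₁ * Real.exp (-(c₁ * t))) fun c hc' => ?_).trans ?_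
          · refine (h.d1 x hxA c (h.hSA (hQjS j hc'))).trans ?_
            refine mul_le_mul_of_nonneg_left (exp_le_of ?_) h.hW₁
            have hne : rep x ≠ rep c := by
              intro he
              refine hxQ (Finset.mem_filter.2 ⟨hxS, ?_⟩)
              rw [he]
              exact (Finset.mem_filter.1 hc').2
            have i2 := hsep x hxS c (hQjS j hc') hne
            have i3 : (t : ℝ) ≤ sd x c := by exact_mod_cast i2.le
            exact mul_le_mul_of_nonneg_left i3 hc.le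
          · rw [nsmul_eq_mul]
            have := h.hW₁
            exact mul_le_mul_of_nonneg_right (hcardj j) (by positivity)
        exact ⟨i1.trans (h.f2 x hxS).1, i1.trans (h.f2 x hxS).2⟩
      · have i1 := h.f1 x (Finset.mem_sdiff.2 ⟨hxA, hxS⟩) (hBQ j hj x hbx)
        exact ⟨(hfl x hxA j).trans i1.1, (hfl x hxA j).trans i1.2⟩)
    (fun j hj => by
      have i1 : ∑ x ∈ A \ Qj j, (if Box (a₀ j) (2 ^ (k + 2)) x then κ x * fl G κ (Qj j) x else 0) ≤
          ∑ x ∈ A, κ x * fl G κ S x := by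
        refine le_trans (Finset.sum_le_sum (g := fun x => κ x * fl G κ S x) fun x hx => ?_) ?_
        · have hxA := (Finset.mem_sdiff.1 hx).1
          split
          · exact hfl x hxA j
          · refine mul_nonneg (h.hκ x hxA) ?_
            unfold fl
            exact Finset.sum_nonneg fun c hc' =>
              mul_nonneg (h.hκ c (h.hSA hc')) (sq_nonneg _)
        · refine Finset.sum_le_sum_of_subset_of_nonneg Finset.sdiff_subset fun x hx _ => ?_
          refine mul_nonneg (h.hκ x hx) ?_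
          unfold fl
          exact Finset.sum_nonneg fun c hc' => mul_nonneg (h.hκ c (h.hSA hc')) (sq_nonneg _)
      refine i1.trans (le_trans (le_of_eq ?_) h.f3)
      unfold fl
      simp only [Finset.mul_sum]
      rw [Finset.sum_comm]
      refine Finset.sum_congr rfl fun c _ => Finset.sum_congr rfl fun x _ => ?_
      rw [h.hs x c]
      ring)
    (fun j hj x hx hbx => by
      rw [hK2] at hbx
      obtain ⟨hxA, hxQ⟩ := Finset.mem_sdiff.1 hx
      have i0 : (2 : ℝ) * 2 ^ k ≤ sd x j := by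
        have := nbox_sd hKM hbx
        rw [hKk] at this
        exact_mod_cast this
      rw [hfs]
      refine (Finset.sum_le_card_nsmul _ _ (W₁ * (Real.exp (-(c₁ / 2 * 2 ^ k)) *
        Real.exp (-(3 * c₁ / 16 * sd x j)))) fun c hc' => ?_).trans ?_
      · refine (h.d1 x hxA c (h.hSA (hQjS j hc'))).trans ?_
        refine mul_le_mul_of_nonneg_left ?_ h.hW₁
        rw [← Real.exp_add]
        refine Real.exp_le_exp.2 ?_
        have i2 := hclose j c hc'
        have i3 := h.hgeo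
        have i4 : (sd c j : ℝ) ≤ 2 ^ k := by
          have : sd c j ≤ 2 ^ k := by omega
          exact_mod_cast this
        have i5 := htri x c j
        nlinarith
      · rw [nsmul_eq_mul]
        have := h.hW₁
        calc ((Qj j).card : ℝ) * (W₁ * (Real.exp (-(c₁ / 2 * 2 ^ k)) *
              Real.exp (-(3 * c₁ / 16 * sd x j))))
            ≤ (S.card : ℝ) * (W₁ * (Real.exp (-(c₁ / 2 * 2 ^ k)) *
              Real.exp (-(3 * c₁ / 16 * sd x j)))) :=
              mul_le_mul_of_nonneg_right (hcardj j) (by positivity)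
          _ = (S.card : ℝ) * (W₁ * Real.exp (-(c₁ / 2 * 2 ^ k))) *
              Real.exp (-(3 * c₁ / 16 * sd x j)) := by ring
          _ ≤ _ := mul_le_mul_of_nonneg_right h.e1 (Real.exp_pos _).le)
    (fun j hj x y hx hy => by
      rw [hK2] at hx hy
      have i1 := nbox_sd hKM hx
      have i2 := box_sd hKM hy
      have : sd y j ≤ 2 * sd x j := by omega
      exact_mod_cast this)
    (fun x hx => by
      rw [hc16, hK2]
      have := hν' x hx
      have := hnn2 x hx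
      have := hν1 x hx
      linarith)
  rw [hUn, hc16, hK2] at hC
  -- the release
  have hR := rel_torJ hd I (k := k + 2) Jr (R := 2 ^ k) (by positivity) h.hM a₀ S h.hS
    (G := G) (G' := G') (κ := κ) (m := m) (A := A \ S)
    (B := fun j => (A \ S).filter fun x => ∃ q ∈ S, rep q = j ∧ 4 * sd x q ≤ t) (ε := ε)
    h.hs h.hs' (fun x hx => h.hκ x (Finset.mem_sdiff.1 hx).1)
    (fun j _ => Finset.filter_subset _ _)
    (fun j hj x hx => by
      rw [hK2]
      obtain ⟨_, q, hq, hqj, hxq⟩ := Finset.mem_filter.1 hx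
      refine core_sd hKM (r := S.card * t + t) ?_ ?_
      · have := h.hgeo
        omega
      · have i1 := hclose j q (Finset.mem_filter.2 ⟨hq, hqj⟩)
        have i2 := sd_tri x q j
        omega)
    hε hε1
    (fun j hj x hx => by
      obtain ⟨hxA, q, hq, hqj, hxq⟩ := Finset.mem_filter.1 hx
      refine le_trans ?_ (h.m1 x hxA ⟨q, hq, hxq⟩)
      refine Finset.sum_le_sum_of_subset_of_nonneg ?_ fun y hy _ => ?_
      · intro y hy
        obtain ⟨hyA, q', hq', _, hyq⟩ := Finset.mem_filter.1 hy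
        exact Finset.mem_filter.2 ⟨hyA, q', hq', hyq⟩
      · exact mul_nonneg (h.hκ y (Finset.mem_sdiff.1 (Finset.mem_filter.1 hy).1).1) (sq_nonneg _))
    (θ := θ) (T := T) (δ := δ) (W := Wt) (c := c₁ / 16) (b₀ := b₀) (b₁ := b₁) (cu := cu) (u := u)
    hC (fun x hx => h.hw x (Finset.mem_sdiff.1 hx).1)
    (fun x hx => by
      have hxA := (Finset.mem_sdiff.1 hx).1
      have := h0 x hxA
      have := hnn1 x hxA
      linarith)
    (fun x hx => by
      have hxA := (Finset.mem_sdiff.1 hx).1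
      have := hν' x hxA
      have := hnn2 x hxA
      have := hν1 x hxA
      linarith)
    (fun x hx => h0u x (Finset.mem_sdiff.1 hx).1)
    (fun x hx => by
      have hxA := (Finset.mem_sdiff.1 hx).1
      have := hν' x hxA
      have := hnn1 x hxA
      have := hnn2 x hxA
      have := hν2 x hxA
      linarith)
    (fun x hx => hcu x (Finset.mem_sdiff.1 hx).1) hcu0 hb₀
    (fun j hj e he => by
      rw [hK2] at he
      exact hb e (hBQ j hj _ he.1))
    hb₁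
    (fun j hj x hx => by
      obtain ⟨hxA, q, hq, hqj, hxq⟩ := Finset.mem_filter.1 hx
      exact h.m0 x hxA ⟨q, hq, hxq⟩)
    hθ hδ
    (fun j hj x hx => by
      obtain ⟨hxA, q, hq, hqj, hxq⟩ := Finset.mem_filter.1 hx
      exact h.m2 x hxA ⟨q, hq, hxq⟩)
    (fun j hj => by
      refine le_trans ?_ h.m3
      refine Finset.sum_le_sum_of_subset_of_nonneg ?_ fun y hy _ => ?_
      · intro y hy
        obtain ⟨hyA, q', hq', _, hyq⟩ := Finset.mem_filter.1 hy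
        exact Finset.mem_filter.2 ⟨hyA, q', hq', hyq⟩
      · obtain ⟨hyA, hyn⟩ := Finset.mem_filter.1 hy
        exact mul_nonneg (h.hκ y (Finset.mem_sdiff.1 hyA).1) (h.m0 y hyA hyn))
    hWt0 (by positivity) (by linarith)
    (fun x hx y hy hxy => by
      have hxA := (Finset.mem_sdiff.1 hx).1
      have hyA := (Finset.mem_sdiff.1 hy).1
      have hg' : ‖G x y - G' x y‖ ≤ ‖G x y‖ + ‖G' x y‖ := norm_sub_le _ _
      have key : ∀ q ∈ S, κ x * κ y * (‖G x y‖ * ‖G x y - G' x y‖ + ‖G x y - G' x y‖ ^ 2) ≤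
          Wt * Real.exp (-(c₁ / 16 * ((sd x q : ℝ) + sd y q))) →
          κ x * κ y * (‖G x y‖ * ‖G x y - G' x y‖ + ‖G x y - G' x y‖ ^ 2) ≤
            Wt * ∑ q ∈ S, Real.exp (-(c₁ / 16 * ((sd x q : ℝ) + sd y q))) := by
        intro q hq hh
        refine hh.trans (mul_le_mul_of_nonneg_left ?_ hWt0)
        exact Finset.single_le_sum
          (f := fun q => Real.exp (-(c₁ / 16 * ((sd x q : ℝ) + sd y q))))
          (fun _ _ => (Real.exp_pos _).le) hq
      by_cases hnx : nr S t x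
      · by_cases hny : nr S t y
        · -- different clusters
          obtain ⟨q₁, hq₁, h1⟩ := hnx
          obtain ⟨q₂, hq₂, h2⟩ := hny
          have hne : rep q₁ ≠ rep q₂ := by
            intro he
            refine hxy ⟨rep q₁, Finset.mem_image_of_mem rep hq₁, ?_, ?_⟩
            · exact Finset.mem_filter.2 ⟨hx, q₁, hq₁, rfl, h1⟩
            · exact Finset.mem_filter.2 ⟨hy, q₂, hq₂, he.symm, h2⟩
          have h3 := hsep q₁ hq₁ q₂ hq₂ hne
          have h4 : (t : ℝ) ≤ sd q₁ q₂ := by exact_mod_cast h3.le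
          have h5 : 4 * (sd x q₁ : ℝ) ≤ t := by exact_mod_cast h1
          have h6 : 4 * (sd y q₂ : ℝ) ≤ t := by exact_mod_cast h2
          have h7 := htri q₁ x q₂
          have h8 := htri x y q₂
          have h9 := hsdc q₁ x
          have h10 := htri y x q₁
          have h11 := hsdc y x
          refine key q₁ hq₁ ?_
          refine tail_pair (s := (sd x y : ℝ)) (tt := t) (h.hκ x hxA) (h.hκ y hyA) (norm_nonneg _)
            (norm_nonneg _) hg' h.hW₁ hc (h.d1 x hxA y hyA) (h.d2 x hx y hy)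
            (by positivity) (by positivity) (by positivity) h.e2 (Or.inr ⟨?_, ?_⟩)
          · linarith
          · linarith
        · obtain ⟨q, hq, h1⟩ := h.d3 y hy x hx
          have h2 : (t : ℝ) ≤ 4 * sd y q := by
            have : ¬ 4 * sd y q ≤ t := fun hh => hny ⟨q, hq, hh⟩
            exact_mod_cast (Nat.lt_of_not_le this).le
          refine key q hq ?_
          have h3 := tail_pair (s := (sd x y : ℝ)) (tt := t) (a := sd y q) (b := sd x q)
            (g := ‖G x y‖) (g' := ‖G' x y‖)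
            (D := ‖G x y - G' x y‖) (h.hκ x hxA) (h.hκ y hyA) (norm_nonneg _)
            (norm_nonneg _) hg' h.hW₁ hc (h.d1 x hxA y hyA) (h.d2 x hx y hy)
            (by positivity) (by positivity) (by positivity) h.e2 (Or.inl ⟨?_, ?_, h2⟩)
          · rw [add_comm (sd x q : ℝ)]
            exact h3
          · rw [h.hs x y, h.hs' x y, mul_comm (κ x)]
            exact h1
          · exact htri x y q
      · obtain ⟨q, hq, h1⟩ := h.d3 x hx y hy
        have h2 : (t : ℝ) ≤ 4 * sd x q := by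
          have : ¬ 4 * sd x q ≤ t := fun hh => hnx ⟨q, hq, hh⟩
          exact_mod_cast (Nat.lt_of_not_le this).le
        refine key q hq ?_
        refine tail_pair (s := (sd x y : ℝ)) (tt := t) (h.hκ x hxA) (h.hκ y hyA) (norm_nonneg _)
          (norm_nonneg _) hg' h.hW₁ hc (h.d1 x hxA y hyA) (h.d2 x hx y hy)
          (by positivity) (by positivity) (by positivity) h.e2 (Or.inl ⟨h1, ?_, h2⟩)
        have h3 := htri y x q
        have h4 := hsdc y x
        linarith)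
    hu0
    (by
      refine le_trans (le_of_eq ?_) hu1
      have e1 : (((2 ^ (k + 2) : ℕ) : ℝ) / ((2 ^ k : ℕ) : ℝ)) ^ 2 = 16 := by
        push_cast
        rw [pow_add, mul_div_assoc, mul_comm, div_mul_cancel₀ _ (by positivity)]
        norm_num
      rw [e1]
      ring)
    (by
      refine le_trans (le_of_eq ?_) hu2
      have e1 : (((2 ^ (k + 2) : ℕ) : ℝ) / ((2 ^ k : ℕ) : ℝ)) ^ 2 = 16 := by
        push_cast
        rw [pow_add, mul_div_assoc, mul_comm, div_mul_cancel₀ _ (by positivity)]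
        norm_num
      rw [e1]
      ring)
    (fun x hx => by
      have hxA := (Finset.mem_sdiff.1 hx).1
      rw [hK2]
      have := hν' x hxA
      have := hnn1 x hxA
      have := h0 x hxA
      have := hν1 x hxA
      have e : (∑ q ∈ S, Real.exp (-(c₁ / 16 / (4 * d) * sd x q))) = Ex x := rfl
      rw [e]
      linarith)
    (fun x hx => by
      have hxA := (Finset.mem_sdiff.1 hx).1
      rw [hK2]
      have := hν' x hxA
      have := hnn1 x hxA
      have := hν2 x hxA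
      have e : (∑ q ∈ S, Real.exp (-(c₁ / 16 / (4 * d) * sd x q))) = Ex x := rfl
      rw [e]
      linarith)
  rw [hK2] at hR
  have hA' : ∀ x ∈ A \ S, x ∈ A := fun x hx => (Finset.mem_sdiff.1 hx).1
  have hbd : ∀ e, 2 * fac d Jc θ₁ T₁ * nbE I a₀ (2 * K) e + CT d (c₁ / 16) * Wt *
      (∑ j ∈ I, Real.exp (-(c₁ / 16 / (4 * d) * sd (sT e) j))) +
      (u * b₁ * nbE I a₀ (2 * K) e + CT d (c₁ / 16) * Wt * Ex (sT e)) ≤ νb e := by
    intro e
    refine le_trans ?_ (hνb e)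
    have hT0 : 0 ≤ T₁ := by
      refine le_trans (Finset.sum_nonneg fun c hc' => ?_) h.f3
      refine mul_nonneg (h.hκ c (h.hSA hc')) (Finset.sum_nonneg fun x hx => ?_)
      exact mul_nonneg (h.hκ x hx) (sq_nonneg _)
    have i0 := fac_nonneg d Jc hθ₁ hT0
    have i1 := mul_le_mul_of_nonneg_left (hnbE e)
      (by positivity : 0 ≤ 2 * fac d Jc θ₁ T₁ + u * b₁)
    have i2 := mul_le_mul_of_nonneg_left (hExI (sT e)) (mul_nonneg hCT hWt0)
    linarith
  have hnbE0 : ∀ e, 0 ≤ 2 * fac d Jc θ₁ T₁ * nbE I a₀ (2 * K) e + CT d (c₁ / 16) * Wt *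
      (∑ j ∈ I, Real.exp (-(c₁ / 16 / (4 * d) * sd (sT e) j))) := by
    intro e
    have hT0 : 0 ≤ T₁ := by
      refine le_trans (Finset.sum_nonneg fun c hc' => ?_) h.f3
      refine mul_nonneg (h.hκ c (h.hSA hc')) (Finset.sum_nonneg fun x hx => ?_)
      exact mul_nonneg (h.hκ x hx) (sq_nonneg _)
    have i0 := fac_nonneg d Jc hθ₁ hT0
    have i1 := nbE_nonneg I a₀ (2 * K) e
    have : 0 ≤ ∑ j ∈ I, Real.exp (-(c₁ / 16 / (4 * d) * sd (sT e) j)) :=
      Finset.sum_nonneg fun _ _ => (Real.exp_pos _).le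
    positivity
  refine hR.mono (fun x hx => (h.hw x (hA' x hx)).le) (fun x hx => ?_) (fun x hx => ?_)
    (fun x hx => ?_) (fun x hx => ?_) (fun e => ?_) (fun e => ?_)
  · have := h0 x (hA' x hx)
    have := hnn1 x (hA' x hx)
    have := hnn2 x (hA' x hx)
    have e : (∑ q ∈ S, Real.exp (-(c₁ / 16 / (4 * d) * sd x q))) = Ex x := rfl
    rw [e]
    linarith
  · have := hν' x (hA' x hx)
    have e : (∑ q ∈ S, Real.exp (-(c₁ / 16 / (4 * d) * sd x q))) = Ex x := rfl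
    rw [e]
    linarith
  · have := hν' x (hA' x hx)
    have := hnn1 x (hA' x hx)
    have e : (∑ q ∈ S, Real.exp (-(c₁ / 16 / (4 * d) * sd x q))) = Ex x := rfl
    rw [e]
    linarith
  · exact hν2 x (hA' x hx)
  · have := hbd e
    have e2 : (∑ q ∈ S, Real.exp (-(c₁ / 16 / (4 * d) * sd (sT e) q))) = Ex (sT e) := rfl
    rw [e2]
    linarith
  · have := hbd e
    have := hnbE0 e
    have e2 : (∑ q ∈ S, Real.exp (-(c₁ / 16 / (4 * d) * sd (sT e) q))) = Ex (sT e) := rfl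
    rw [e2]
    linarith

end Pool.Agent.KL2
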