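import Pool.Agent.Helper34_KL2.LY
import Pool.Agent.Helper34_KL2.Kfm

/-!
# The form after the kill and release of a cluster
-/

set_option autoImplicit false

open scoped BigOperators NNReal Matrix

noncomputable section

namespace Pool.Agent.KL2

open Pool.Agent.BED (Tor)
open Pool.Agent.AND2B (net kap Gt Hr Vef res)
open Pool.Agent.ANP (Cfg Geo Fc)
open Pool.Agent.AFJ (ind LaR EE)
open Pool.Agent.LE.QF (BB KK Dl)
open Pool.Agent.ANR (Gr cE fl CutStmt)
open Pool.Agent.LTG (Fm Bd sT tT qd)
open Pool.Agent.CTC (CT fac)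
open Pool.Agent.AHH

section form

variable {X : Type} [Fintype X] [DecidableEq X]

/-- the two notations for the form -/
theorem qd_ee (G : Matrix X X ℂ) (κ : X → ℝ) (A : Finset X) (hs : ∀ x y, G x y = G y x)
    (f : X → ℝ) : qd (EE G κ A) f = cE G κ A f := by
  set K := AFJ.cd G κ A with hK
  have hKs : ∀ x y, K x y = K y x := by
    intro x y
    rw [hK]
    unfold AFJ.cd KK
    rw [hs x y]
    by_cases h : x ∈ A ∧ y ∈ A
    · rw [if_pos h, if_pos h.symm]
      ring
    · rw [if_neg h, if_neg fun h' => h h'.symm]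
  have h1 : ∀ a, ((EE G κ A).mulVec f) a = ∑ b, K a b * (f a - f b) := by
    intro a
    unfold EE Dl Matrix.mulVec dotProduct
    simp only [Matrix.sub_apply, Matrix.diagonal_apply]
    have : ∀ b, ((if a = b then ∑ c, K a c else 0) - K a b) * f b =
        (if a = b then (∑ c, K a c) * f b else 0) - K a b * f b := by
      intro b
      split <;> ring
    rw [Finset.sum_congr rfl fun b _ => this b, Finset.sum_sub_distrib, Finset.sum_ite_eq,
      if_pos (Finset.mem_univ _), Finset.sum_mul, ← Finset.sum_sub_distrib]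
    exact Finset.sum_congr rfl fun b _ => by ring
  have h2 : qd (EE G κ A) f = ∑ a, ∑ b, K a b * (f a * (f a - f b)) := by
    unfold qd
    refine Finset.sum_congr rfl fun a _ => ?_
    rw [h1, Finset.mul_sum]
    exact Finset.sum_congr rfl fun b _ => by ring
  have h3 : ∑ a, ∑ b, K a b * (f a * (f a - f b)) =
      ∑ a, ∑ b, K a b * (f b * (f b - f a)) := by
    rw [Finset.sum_comm]
    exact Finset.sum_congr rfl fun a _ => Finset.sum_congr rfl fun b _ => by rw [hKs]
  have h4 : 2 * qd (EE G κ A) f = ∑ a, ∑ b, K a b * (f a - f b) ^ 2 := by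
    have : 2 * qd (EE G κ A) f = ∑ a, ∑ b, K a b * (f a * (f a - f b)) +
        ∑ a, ∑ b, K a b * (f b * (f b - f a)) := by
      rw [← h3, ← h2]; ring
    rw [this, ← Finset.sum_add_distrib]
    refine Finset.sum_congr rfl fun a _ => ?_
    rw [← Finset.sum_add_distrib]
    exact Finset.sum_congr rfl fun b _ => by ring
  have h5 : ∑ a, ∑ b, K a b * (f a - f b) ^ 2 =
      ∑ x ∈ A, ∑ y ∈ A, κ x * κ y * ‖G x y‖ ^ 2 * (f x - f y) ^ 2 := by
    symm
    rw [← Finset.sum_subset (Finset.subset_univ A) (f := fun a => ∑ b, K a b * (f a - f b) ^ 2)]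
    · refine Finset.sum_congr rfl fun x hx => ?_
      rw [← Finset.sum_subset (Finset.subset_univ A) (f := fun b => K x b * (f x - f b) ^ 2)]
      · refine Finset.sum_congr rfl fun y hy => ?_
        have : K x y = κ x * κ y * ‖G x y‖ ^ 2 := by
          rw [hK]
          unfold AFJ.cd KK
          rw [if_pos ⟨hx, hy⟩]
        rw [this]
      · intro y _ hy
        have : K x y = 0 := if_neg fun h => hy h.2
        rw [this, zero_mul]
    · intro x _ hx
      refine Finset.sum_eq_zero fun y _ => ?_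
      have : K x y = 0 := if_neg fun h => hx h.1
      rw [this, zero_mul]
  unfold cE
  rw [← h5, ← h4]
  ring

/-- the form only depends on the absorption at the nodes -/
theorem cE_kap (G : Matrix X X ℂ) {κ κ' : X → ℝ} {A : Finset X} (h : ∀ x ∈ A, κ x = κ' x)
    (f : X → ℝ) : cE G κ A f = cE G κ' A f := by
  unfold cE
  congr 1
  exact Finset.sum_congr rfl fun x hx => Finset.sum_congr rfl fun y hy => by rw [h x hx, h y hy]

end form

theorem fm_congr {d M : ℕ} [NeZero M] {A : Finset (Tor d M)} {w w' εl εu : Tor d M → ℝ}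
    {bl bu : Bd d M → ℝ} {F F' : (Tor d M → ℝ) → ℝ} (hw : ∀ x ∈ A, w x = w' x)
    (hF : ∀ f, F f = F' f) (h : Fm sT tT A w εl εu bl bu F) : Fm sT tT A w' εl εu bl bu F' := by
  have e1 : F = F' := funext hF
  have e2 : LTG.wl A w εl = LTG.wl A w' εl := by
    funext x
    unfold LTG.wl
    by_cases hx : x ∈ A
    · rw [if_pos hx, if_pos hx, hw x hx]
    · rw [if_neg hx, if_neg hx]
  have e3 : LTG.wu A w εu = LTG.wu A w' εu := by
    funext x
    unfold LTG.wu
    by_cases hx : x ∈ A
    · rw [if_pos hx, if_pos hx, hw x hx]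
    · rw [if_neg hx, if_neg hx]
  exact ⟨by rw [← e1, ← e2]; exact h.lb, by rw [← e1, ← e3]; exact h.ub⟩

end Pool.Agent.KL2
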